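import Mathlib

/-!
Project MI (MP_4e44b6_al, question 1 over the reals): definitions and the statements of the jobs.
-/

set_option autoImplicit false
set_option linter.unusedVariables false

open Polynomial

namespace Pool.Agent.K7.H97.MI

abbrev M2 := Matrix (Fin 2) (Fin 2) ℝ

abbrev Om := ℕ → M2

/-! ### the trace ring -/

inductive TR : (Om → M2) → Prop
  | const (r : ℝ) : TR (fun _ => r • (1 : M2))
  | var (i : ℕ) : TR (fun x => x i)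
  | add {f g : Om → M2} : TR f → TR g → TR (fun x => f x + g x)
  | mul {f g : Om → M2} : TR f → TR g → TR (fun x => f x * g x)
  | tr {f : Om → M2} : TR f → TR (fun x => (f x).trace • (1 : M2))

/-- real valued elements of the trace ring -/
def PR (f : Om → ℝ) : Prop := TR (fun x => f x • (1 : M2))

/-- half of the trace -/
noncomputable def ht (T : M2) : ℝ := T.trace / 2

/-- a quarter of the discriminant: the square of the traceless part -/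
noncomputable def dd (T : M2) : ℝ := (T.trace / 2) ^ 2 - T.det

/-- the traceless part -/
noncomputable def tl (T : M2) : M2 := T - ht T • (1 : M2)

/-- the ratio -/
noncomputable def rr (T : M2) : ℝ := dd T / ht T ^ 2

/-! ### keys: classes of matrices up to conjugation and multiplication by positive numbers -/

inductive Key
  | zero
  | sc (s : SignType)
  | reg (r : ℝ) (s : SignType)
  | inf (s : SignType)
  | nil

open Classical in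
noncomputable def key (T : M2) : Key :=
  if T = 0 then Key.zero
  else if T = ht T • (1 : M2) then Key.sc (SignType.sign (ht T))
  else if ht T ≠ 0 then Key.reg (rr T) (SignType.sign (ht T))
  else if dd T ≠ 0 then Key.inf (SignType.sign (dd T))
  else Key.nil

/-- `K` is, up to the key `zero`, the set of keys of the values of an element of the trace ring -/
def Realizes (K : Set Key) : Prop :=
  ∃ P : Om → M2, TR P ∧ ∀ k : Key, k ≠ Key.zero → (k ∈ K ↔ ∃ x, key (P x) = k)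

/-- the regular keys of `K` are locally constant outside the finite set `Z` -/
def Local (Z : Finset ℝ) (K : Set Key) : Prop :=
  ∀ (x y : ℝ) (s : SignType), (∀ z ∈ Z, z ∉ Set.uIcc x y) → Key.reg x s ∈ K → Key.reg y s ∈ K

/-! ### semihomogeneous polynomials -/

noncomputable def coeff {X : Type} (p : FreeAlgebra ℝ X) (l : FreeMonoid X) : ℝ :=
  (FreeAlgebra.equivMonoidAlgebraFreeMonoid p).coeff l

def IsSemihomogeneous {m : ℕ} (p : FreeAlgebra ℝ (Fin m)) : Prop :=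
  ∃ (w : Fin m → ℕ) (d : ℤ), d ≠ 0 ∧
    ∀ l : FreeMonoid (Fin m), coeff p l ≠ 0 → (((l.toList.map w).sum : ℕ) : ℤ) = d

/-- the image of `p` on the real two by two matrices -/
noncomputable def image {m : ℕ} (p : FreeAlgebra ℝ (Fin m)) : Set M2 :=
  Set.range (fun a : Fin m → M2 => FreeAlgebra.lift ℝ a p)

/-- finite unions of nondegenerate intervals -/
def IsFUI (S : Set ℝ) : Prop :=
  ∃ F : Set (Set ℝ), F.Finite ∧ (∀ I ∈ F, I.OrdConnected ∧ I.Nontrivial) ∧ S = ⋃₀ F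

/-- the nonzero ratios of the matrices in `S` whose trace has the sign `s` -/
def Rat (S : Set M2) (s : SignType) : Set ℝ :=
  {r | r ≠ 0 ∧ ∃ T ∈ S, SignType.sign (ht T) = s ∧ ht T ≠ 0 ∧ dd T = r * ht T ^ 2}

/-- the union of both -/
def RatU (S : Set M2) : Set ℝ := Rat S 1 ∪ Rat S (-1)

/-- admissible sets of matrices -/
structure Admissible (S : Set M2) : Prop where
  zero : (0 : M2) ∈ S
  smul : ∀ T ∈ S, ∀ c : ℝ, 0 < c → c • T ∈ S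
  conj : ∀ T ∈ S, ∀ g : M2ˣ, (g : M2) * T * ((g⁻¹ : M2ˣ) : M2) ∈ S
  fui : ∀ s : SignType, s ≠ 0 → IsFUI (Rat S s)
  dbl : ∀ T ∈ S, ht T ≠ 0 → dd T = 0 → (0 : ℝ) ∈ closure (Rat S (SignType.sign (ht T)))
  infp : ∀ T ∈ S, ht T = 0 → 0 < dd T → ¬ BddAbove (RatU S)
  infn : ∀ T ∈ S, ht T = 0 → dd T < 0 → ¬ BddBelow (RatU S)
  pos : ∃ r ∈ RatU S, 0 < r
  neg : ∃ r ∈ RatU S, r < 0
  conn : (closure (RatU S)).OrdConnected ∨ ((closure (RatU S))ᶜ).OrdConnected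

/-! ### statements of the jobs -/

/-- JOB FIN -/
def StFin : Prop := ∀ P : Om → M2, TR P → ∃ (m : ℕ) (p : FreeAlgebra ℝ (Fin m)),
  IsSemihomogeneous p ∧ image p = {T | ∃ (c : ℝ) (x : Om), 0 ≤ c ∧ T = c • P x}

/-- JOB KEY -/
def StKey : Prop := (∀ (T : M2) (c : ℝ) (g : M2ˣ), 0 < c →
    key (c • ((g : M2) * T * ((g⁻¹ : M2ˣ) : M2))) = key T) ∧
  (∀ T T' : M2, key T = key T' → ∃ (c : ℝ) (g : M2ˣ), 0 < c ∧
    T' = c • ((g : M2) * T * ((g⁻¹ : M2ˣ) : M2))) ∧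
  (∀ P : Om → M2, TR P → ∀ (g : M2ˣ) (x : Om),
    P (fun i => (g : M2) * x i * ((g⁻¹ : M2ˣ) : M2)) = (g : M2) * P x * ((g⁻¹ : M2ˣ) : M2))

/-- a base map for the closed set `J` -/
def BaseOK (J : Set ℝ) : Prop := ∃ P : Om → M2, TR P ∧ (∀ x, ht (P x) ≠ 0 → rr (P x) ∈ J) ∧
  ∃ Z : Finset ℝ, ∀ r ∈ interior J, r ∉ Z → ∃ x, ht (P x) ≠ 0 ∧ rr (P x) = r

/-- JOB BASE1 -/
def StB1 : Prop := BaseOK Set.univ ∧ (∀ a b : ℝ, a < 0 → 0 < b → BaseOK (Set.Icc a b)) ∧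
  (∀ b : ℝ, 0 < b → BaseOK (Set.Iic b)) ∧ (∀ a : ℝ, a < 0 → BaseOK (Set.Ici a)) ∧
  (∀ a b : ℝ, a ≤ 0 → 0 ≤ b → a < b → BaseOK (Set.Iic a ∪ Set.Ici b))

/-- JOB BASE2 -/
def StB2 : Prop := ∀ a b : ℝ, a < b → (0 < a ∨ b < 0) → BaseOK (Set.Iic a ∪ Set.Ici b)

/-- JOB STC -/
def StC : Prop := ∀ (P : Om → M2) (Z : Finset ℝ) (A : SignType → Set ℝ), TR P → (0 : ℝ) ∈ Z →
  (∀ s x y, (∀ z ∈ Z, z ∉ Set.uIcc x y) → x ∈ A s → y ∈ A s) →
  (∀ x, ht (P x) ≠ 0 → rr (P x) ∉ Z → rr (P x) ∈ A 1 ∨ rr (P x) ∈ A (-1)) →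
  (∀ s : SignType, s ≠ 0 → ∀ r ∈ A s, r ∉ Z → ∃ x, ht (P x) ≠ 0 ∧ rr (P x) = r) →
  Realizes {k | ∃ r s, k = Key.reg r s ∧ s ≠ 0 ∧ r ∈ A s ∧ r ∉ Z}

/-- JOB BUMP (first half): a bump function `N / (1 + r ^ 2) ^ k` -/
def StBump : Prop := ∀ (Z : Finset ℝ) (p q : ℝ), p < q → (∀ z ∈ Z, z ∉ Set.Ioo p q) →
  ∀ C : ℝ, 0 < C → ∃ (N : ℝ[X]) (k : ℕ), N.natDegree < 2 * k ∧
    (∀ r : ℝ, 0 ≤ N.eval r ∧ N.eval r ≤ (1 + r ^ 2) ^ k) ∧ (∀ z ∈ Z, N.eval z = 0) ∧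
    (∃ r ∈ Set.Ioo p q, N.eval r = (1 + r ^ 2) ^ k) ∧
    ∀ r : ℝ, r ∉ Set.Ioo p q → r ∉ Z → ∀ c ∈ Z,
      C * (1 + r ^ 2) * N.eval r < |r - c| * (1 + r ^ 2) ^ k

/-- JOB BUMP (second half): the normalised bump function for a nonzero special value `z` -/
def StBumpD : Prop := ∀ (Z : Finset ℝ) (z ξ : ℝ), (0 : ℝ) ∈ Z → z ∈ Z → z ≠ 0 → ξ ≠ z →
  (∀ c ∈ Z, c ≠ z → c ∉ Set.uIcc z ξ) → ∀ C : ℝ, 0 < C → ∃ (N : ℝ[X]) (k : ℕ),
    N.natDegree < 2 * k ∧ (∀ c ∈ Z, N.eval c = 0) ∧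
    (∀ r ∈ Set.Ioo (min z ξ) (max z ξ), ∃ M : ℝ, 0 ≤ M ∧ M ≤ 1 ∧
      Real.sqrt |r| * N.eval r = (Real.sqrt |r| - Real.sqrt |z|) * M * (1 + r ^ 2) ^ k) ∧
    (∃ r ∈ Set.Ioo (min z ξ) (max z ξ),
      Real.sqrt |r| * N.eval r = (Real.sqrt |r| - Real.sqrt |z|) * (1 + r ^ 2) ^ k) ∧
    ∀ r : ℝ, r ∉ Set.Ioo (min z ξ) (max z ξ) → r ∉ Z → ∀ c ∈ Z,
      C * (1 + r ^ 2) * |N.eval r| < |r - c| * (1 + r ^ 2) ^ k

/-- JOB STEPD: adding a nonzero special value -/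
def StD : Prop := ∀ (K : Set Key) (Z : Finset ℝ) (z ξ : ℝ) (s : SignType), Realizes K → Local Z K →
  Key.nil ∉ K → (0 : ℝ) ∈ Z → z ∈ Z → z ≠ 0 → s ≠ 0 → Key.reg ξ s ∈ K → ξ ≠ z →
  (∀ c ∈ Z, c ≠ z → c ∉ Set.uIcc z ξ) → Realizes (insert (Key.reg z s) K)

/-- JOB STEPS (first half): adding scalars -/
def StS : Prop := ∀ (K : Set Key) (Z : Finset ℝ) (ξ : ℝ) (s : SignType), Realizes K → Local Z K →
  Key.nil ∉ K → (0 : ℝ) ∈ Z → s ≠ 0 → Key.reg ξ s ∈ K → ξ ≠ 0 →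
  (∀ c ∈ Z, c ≠ 0 → c ∉ Set.uIcc 0 ξ) → Realizes (insert (Key.sc s) K)

/-- JOB STEPS (second half): adding matrices of trace zero -/
def StI : Prop := ∀ (K : Set Key) (Z : Finset ℝ) (ξ : ℝ) (s : SignType), Realizes K → Local Z K →
  Key.nil ∉ K → (0 : ℝ) ∈ Z → s ≠ 0 → Key.reg ξ s ∈ K →
  ((∀ c ∈ Z, c < ξ) → Realizes (insert (Key.inf 1) K)) ∧
  ((∀ c ∈ Z, ξ < c) → Realizes (insert (Key.inf (-1)) K))

/-- JOB STEPP: adding non-diagonalizable matrices (and scalars) -/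
def StP : Prop := ∀ (K : Set Key) (Z : Finset ℝ) (ξ : ℝ) (s : SignType), Realizes K → Local Z K →
  Key.nil ∉ K → (0 : ℝ) ∈ Z → s ≠ 0 → Key.reg ξ s ∈ K → ξ ≠ 0 →
  (∀ c ∈ Z, c ≠ 0 → c ∉ Set.uIcc 0 ξ) → Realizes (insert (Key.reg 0 s) (insert (Key.sc s) K))

/-- JOB STEPR: removing the scalars, adding the nilpotent matrices -/
def StR : Prop := (∀ K : Set Key, Realizes K → Realizes {k ∈ K | ∀ s, k ≠ Key.sc s}) ∧
  (∀ K : Set Key, Realizes K → (∃ k ∈ K, k ≠ Key.zero ∧ ∀ s, k ≠ Key.sc s) →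
    Realizes (insert Key.nil K))

/-- JOB ASM: assembly of the constructive direction -/
def StSuf : Prop := ∀ S : Set M2, Admissible S → ∃ (m : ℕ) (p : FreeAlgebra ℝ (Fin m)),
  IsSemihomogeneous p ∧ image p = S

/-- JOB NEC: the conditions are necessary -/
def StNec : Prop := ∀ (m : ℕ) (p : FreeAlgebra ℝ (Fin m)), IsSemihomogeneous p →
  (∃ T ∈ image p, ht T ≠ 0) → (∃ T ∈ image p, T ≠ ht T • (1 : M2)) → Admissible (image p)

end Pool.Agent.K7.H97.MI
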