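import Pool.Agent.K7.H97.MI.Basic

/-!
Project MI, job ASM, first part: the base maps for all closed sets, finite unions of intervals.
-/

set_option autoImplicit false
set_option linter.unusedVariables false

open Polynomial

namespace Pool.Agent.K7.H97.MI

theorem icc_of_closed {J : Set ℝ} (hc : IsClosed J) (ho : J.OrdConnected) (hne : J.Nonempty)
    (ha : BddAbove J) (hb : BddBelow J) : J = Set.Icc (sInf J) (sSup J) := by
  have h1 : sSup J ∈ J := hc.csSup_mem hne ha
  have h2 : sInf J ∈ J := hc.csInf_mem hne hb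
  apply Set.eq_of_subset_of_subset
  · intro x hx; exact ⟨csInf_le hb hx, le_csSup ha hx⟩
  · exact ho.out h2 h1

theorem iic_of_closed {J : Set ℝ} (hc : IsClosed J) (ho : J.OrdConnected) (hne : J.Nonempty)
    (ha : BddAbove J) (hb : ¬ BddBelow J) : J = Set.Iic (sSup J) := by
  have h1 : sSup J ∈ J := hc.csSup_mem hne ha
  apply Set.eq_of_subset_of_subset
  · intro x hx; exact le_csSup ha hx
  · intro x hx
    rw [not_bddBelow_iff] at hb
    obtain ⟨y, hy, hyx⟩ := hb x
    exact ho.out hy h1 ⟨hyx.le, hx⟩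

theorem ici_of_closed {J : Set ℝ} (hc : IsClosed J) (ho : J.OrdConnected) (hne : J.Nonempty)
    (ha : ¬ BddAbove J) (hb : BddBelow J) : J = Set.Ici (sInf J) := by
  have h1 : sInf J ∈ J := hc.csInf_mem hne hb
  apply Set.eq_of_subset_of_subset
  · intro x hx; exact csInf_le hb hx
  · intro x hx
    rw [not_bddAbove_iff] at ha
    obtain ⟨y, hy, hyx⟩ := ha x
    exact ho.out h1 hy ⟨hx, hyx.le⟩

theorem univ_of_unbdd {J : Set ℝ} (ho : J.OrdConnected)
    (ha : ¬ BddAbove J) (hb : ¬ BddBelow J) : J = Set.univ := by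
  rw [Set.eq_univ_iff_forall]
  intro x
  rw [not_bddAbove_iff] at ha
  rw [not_bddBelow_iff] at hb
  obtain ⟨y, hy, hyx⟩ := ha x
  obtain ⟨z, hz, hzx⟩ := hb x
  exact ho.out hz hy ⟨hzx.le, hyx.le⟩

theorem baseAll (hB1 : StB1) (hB2 : StB2) (J : Set ℝ) (hc : IsClosed J) (hn : ∃ x ∈ J, x < 0)
    (hp : ∃ x ∈ J, 0 < x) (ho : J.OrdConnected ∨ (Jᶜ).OrdConnected) : BaseOK J := by
  obtain ⟨b1, b2, b3, b4, b5⟩ := hB1
  obtain ⟨xn, hxn, hxn0⟩ := hn
  obtain ⟨xp, hxp, hxp0⟩ := hp
  have hne : J.Nonempty := ⟨xn, hxn⟩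
  rcases ho with ho | ho
  · by_cases ha : BddAbove J
    · by_cases hb : BddBelow J
      · rw [icc_of_closed hc ho hne ha hb]
        exact b2 _ _ (lt_of_le_of_lt (csInf_le hb hxn) hxn0)
          (lt_of_lt_of_le hxp0 (le_csSup ha hxp))
      · rw [iic_of_closed hc ho hne ha hb]
        exact b3 _ (lt_of_lt_of_le hxp0 (le_csSup ha hxp))
    · by_cases hb : BddBelow J
      · rw [ici_of_closed hc ho hne ha hb]
        exact b4 _ (lt_of_le_of_lt (csInf_le hb hxn) hxn0)
      · rw [univ_of_unbdd ho ha hb]; exact b1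
  · set U := Jᶜ with hU
    have hUo : IsOpen U := hc.isOpen_compl
    have hJU : J = Uᶜ := by rw [hU, compl_compl]
    by_cases hUe : U = ∅
    · rw [hJU, hUe, Set.compl_empty]; exact b1
    have hUne : U.Nonempty := Set.nonempty_iff_ne_empty.2 hUe
    -- the supremum of an open set is not attained
    have hsup : BddAbove U → sSup U ∉ U := by
      intro ha h
      obtain ⟨ε, hε, hball⟩ := Metric.isOpen_iff.1 hUo _ h
      have h1 : sSup U + ε / 2 ∈ U := hball (by
        rw [Metric.mem_ball, Real.dist_eq]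
        rw [show sSup U + ε / 2 - sSup U = ε / 2 by ring, abs_of_pos (by linarith)]
        linarith)
      have := le_csSup ha h1
      linarith
    have hinf : BddBelow U → sInf U ∉ U := by
      intro ha h
      obtain ⟨ε, hε, hball⟩ := Metric.isOpen_iff.1 hUo _ h
      have h1 : sInf U - ε / 2 ∈ U := hball (by
        rw [Metric.mem_ball, Real.dist_eq]
        rw [show sInf U - ε / 2 - sInf U = -(ε / 2) by ring, abs_neg, abs_of_pos (by linarith)]
        linarith)
      have := csInf_le ha h1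
      linarith
    -- membership between
    have hbtw : ∀ x, (∃ y ∈ U, y ≤ x) → (∃ y ∈ U, x ≤ y) → x ∈ U := by
      rintro x ⟨y, hy, hyx⟩ ⟨z, hz, hxz⟩
      exact ho.out hy hz ⟨hyx, hxz⟩
    by_cases ha : BddAbove U
    · by_cases hb : BddBelow U
      · have hUeq : U = Set.Ioo (sInf U) (sSup U) := by
          apply Set.eq_of_subset_of_subset
          · intro x hx
            refine ⟨lt_of_le_of_ne (csInf_le hb hx) ?_, lt_of_le_of_ne (le_csSup ha hx) ?_⟩
            · intro h; apply hinf hb; rw [h]; exact hx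
            · intro h; apply hsup ha; rw [← h]; exact hx
          · intro x hx
            obtain ⟨y, hy, hyx⟩ := exists_lt_of_csInf_lt hUne hx.1
            obtain ⟨z, hz, hxz⟩ := exists_lt_of_lt_csSup hUne hx.2
            exact hbtw x ⟨y, hy, hyx.le⟩ ⟨z, hz, hxz.le⟩
        have hJeq : J = Set.Iic (sInf U) ∪ Set.Ici (sSup U) := by
          rw [hJU, hUeq]
          ext x
          simp only [Set.mem_compl_iff, Set.mem_Ioo, not_and_or, not_lt, Set.mem_union,
            Set.mem_Iic, Set.mem_Ici]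
          have e1 : sInf (Set.Ioo (sInf U) (sSup U)) = sInf U := by rw [← hUeq]
          have e2 : sSup (Set.Ioo (sInf U) (sSup U)) = sSup U := by rw [← hUeq]
          rw [e1, e2]
        have hlt : sInf U < sSup U := by
          obtain ⟨x, hx⟩ := hUne
          rw [hUeq] at hx
          exact hx.1.trans hx.2
        rw [hJeq]
        by_cases h1 : 0 < sInf U
        · exact hB2 _ _ hlt (Or.inl h1)
        by_cases h2 : sSup U < 0
        · exact hB2 _ _ hlt (Or.inr h2)
        push Not at h1 h2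
        exact b5 _ _ h1 h2 hlt
      · -- U = Iio
        have hUeq : J = Set.Ici (sSup U) := by
          rw [hJU]
          ext x
          simp only [Set.mem_compl_iff, Set.mem_Ici]
          constructor
          · intro hx
            by_contra hcon
            push Not at hcon
            obtain ⟨z, hz, hxz⟩ := exists_lt_of_lt_csSup hUne hcon
            rw [not_bddBelow_iff] at hb
            obtain ⟨y, hy, hyx⟩ := hb x
            exact hx (hbtw x ⟨y, hy, hyx.le⟩ ⟨z, hz, hxz.le⟩)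
          · intro hx hxU
            have h3 : x = sSup U := le_antisymm (le_csSup ha hxU) hx
            apply hsup ha; rw [← h3]; exact hxU
        rw [hUeq]
        apply b4
        have : xn ∈ Set.Ici (sSup U) := by rw [← hUeq]; exact hxn
        exact lt_of_le_of_lt this hxn0
    · by_cases hb : BddBelow U
      · have hUeq : J = Set.Iic (sInf U) := by
          rw [hJU]
          ext x
          simp only [Set.mem_compl_iff, Set.mem_Iic]
          constructor
          · intro hx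
            by_contra hcon
            push Not at hcon
            obtain ⟨z, hz, hxz⟩ := exists_lt_of_csInf_lt hUne hcon
            rw [not_bddAbove_iff] at ha
            obtain ⟨y, hy, hyx⟩ := ha x
            exact hx (hbtw x ⟨z, hz, hxz.le⟩ ⟨y, hy, hyx.le⟩)
          · intro hx hxU
            have h3 : x = sInf U := le_antisymm hx (csInf_le hb hxU)
            apply hinf hb; rw [← h3]; exact hxU
        rw [hUeq]
        apply b3
        have : xp ∈ Set.Iic (sInf U) := by rw [← hUeq]; exact hxp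
        exact lt_of_lt_of_le hxp0 this
      · exfalso
        have := univ_of_unbdd ho ha hb
        have h3 : xn ∈ U := by rw [this]; trivial
        exact h3 hxn

/-! ### finite unions of intervals -/

theorem ord_local {I : Set ℝ} (hI : I.OrdConnected) {x y : ℝ} (hx : x ∈ I) (hy : y ∉ I) :
    sInf I ∈ Set.uIcc x y ∨ sSup I ∈ Set.uIcc x y := by
  rcases lt_or_gt_of_ne (show x ≠ y from fun h => hy (h ▸ hx)) with h | h
  · right
    have hb : ∀ i ∈ I, i ≤ y := by
      intro i hi
      by_contra hcon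
      push Not at hcon
      exact hy (hI.out hx hi ⟨h.le, hcon.le⟩)
    rw [Set.uIcc_of_le h.le]
    exact ⟨le_csSup ⟨y, hb⟩ hx, csSup_le ⟨x, hx⟩ hb⟩
  · left
    have hb : ∀ i ∈ I, y ≤ i := by
      intro i hi
      by_contra hcon
      push Not at hcon
      exact hy (hI.out hi hx ⟨hcon.le, h.le⟩)
    rw [Set.uIcc_comm, Set.uIcc_of_le h.le]
    exact ⟨le_csInf ⟨x, hx⟩ hb, csInf_le ⟨y, hb⟩ hx⟩

theorem fui_local {A : Set ℝ} (hA : IsFUI A) : ∃ Z : Finset ℝ, ∀ x y : ℝ,
    (∀ z ∈ Z, z ∉ Set.uIcc x y) → x ∈ A → y ∈ A := by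
  classical
  obtain ⟨F, hF, hI, rfl⟩ := hA
  refine ⟨hF.toFinset.image sInf ∪ hF.toFinset.image sSup, fun x y h hx => ?_⟩
  obtain ⟨I, hIF, hxI⟩ := hx
  by_contra hy
  have hyI : y ∉ I := fun h' => hy ⟨I, hIF, h'⟩
  rcases ord_local (hI I hIF).1 hxI hyI with h1 | h1
  · exact h _ (Finset.mem_union_left _ (Finset.mem_image_of_mem _ (hF.mem_toFinset.2 hIF))) h1
  · exact h _ (Finset.mem_union_right _ (Finset.mem_image_of_mem _ (hF.mem_toFinset.2 hIF))) h1

/-- a neighbour of `z` in the interval structure -/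
theorem fui_near {A : Set ℝ} (hA : IsFUI A) {z : ℝ} (hz : z ∈ A) (Z : Finset ℝ) :
    ∃ ξ ∈ A, ξ ≠ z ∧ ∀ c ∈ Z, c ≠ z → c ∉ Set.uIcc z ξ := by
  classical
  obtain ⟨F, hF, hI, rfl⟩ := hA
  obtain ⟨I, hIF, hzI⟩ := hz
  obtain ⟨y, hyI, hyz⟩ := (hI I hIF).2.exists_ne z
  obtain ⟨δ, hδ, hδZ⟩ : ∃ δ : ℝ, 0 < δ ∧ ∀ c ∈ Z, c ≠ z → δ ≤ |c - z| := by
    by_cases hE : (Z.erase z).Nonempty
    · refine ⟨(Z.erase z).inf' hE (fun c => |c - z|), ?_, ?_⟩
      · rw [Finset.lt_inf'_iff]
        intro c hc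
        exact abs_pos.2 (sub_ne_zero.2 (Finset.ne_of_mem_erase hc))
      · intro c hc hcz
        exact Finset.inf'_le _ (Finset.mem_erase.2 ⟨hcz, hc⟩)
    · refine ⟨1, one_pos, fun c hc hcz => ?_⟩
      exact absurd ⟨c, Finset.mem_erase.2 ⟨hcz, hc⟩⟩ hE
  rcases lt_or_gt_of_ne hyz with h | h
  · -- y < z
    set ξ := max y (z - δ / 2) with hξ
    have h1 : ξ < z := max_lt h (by linarith)
    refine ⟨ξ, ⟨I, hIF, (hI I hIF).1.out hyI hzI ⟨le_max_left _ _, h1.le⟩⟩, h1.ne, ?_⟩
    intro c hc hcz hc'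
    rw [Set.uIcc_comm, Set.uIcc_of_le h1.le] at hc'
    have h2 := hδZ c hc hcz
    rw [abs_of_nonpos (by linarith [hc'.2])] at h2
    have h3 : z - δ / 2 ≤ ξ := le_max_right _ _
    linarith [hc'.1]
  · set ξ := min y (z + δ / 2) with hξ
    have h1 : z < ξ := lt_min h (by linarith)
    refine ⟨ξ, ⟨I, hIF, (hI I hIF).1.out hzI hyI ⟨h1.le, min_le_left _ _⟩⟩, h1.ne', ?_⟩
    intro c hc hcz hc'
    rw [Set.uIcc_of_le h1.le] at hc'
    have h2 := hδZ c hc hcz
    rw [abs_of_nonneg (by linarith [hc'.1])] at h2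
    have h3 : ξ ≤ z + δ / 2 := min_le_right _ _
    linarith [hc'.2]

/-- points of the closure -/
theorem closure_near {A : Set ℝ} {z : ℝ} (hz : z ∈ closure A) (Z : Finset ℝ) :
    ∃ ξ ∈ A, ∀ c ∈ Z, c ≠ z → c ∉ Set.uIcc z ξ := by
  classical
  obtain ⟨δ, hδ, hδZ⟩ : ∃ δ : ℝ, 0 < δ ∧ ∀ c ∈ Z, c ≠ z → δ ≤ |c - z| := by
    by_cases hE : (Z.erase z).Nonempty
    · refine ⟨(Z.erase z).inf' hE (fun c => |c - z|), ?_, ?_⟩
      · rw [Finset.lt_inf'_iff]
        intro c hc
        exact abs_pos.2 (sub_ne_zero.2 (Finset.ne_of_mem_erase hc))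
      · intro c hc hcz
        exact Finset.inf'_le _ (Finset.mem_erase.2 ⟨hcz, hc⟩)
    · refine ⟨1, one_pos, fun c hc hcz => ?_⟩
      exact absurd ⟨c, Finset.mem_erase.2 ⟨hcz, hc⟩⟩ hE
  obtain ⟨ξ, hξ, hd⟩ := Metric.mem_closure_iff.1 hz δ hδ
  refine ⟨ξ, hξ, fun c hc hcz hc' => ?_⟩
  have h1 := hδZ c hc hcz
  rw [Real.dist_eq] at hd
  have h2 : |c - z| ≤ |z - ξ| := by
    rw [Set.mem_uIcc] at hc'
    rcases hc' with h | h
    · rw [abs_of_nonneg (by linarith [h.1]), abs_of_nonpos (by linarith [h.1, h.2])]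
      linarith [h.2]
    · rw [abs_of_nonpos (by linarith [h.2]), abs_of_nonneg (by linarith [h.1, h.2])]
      linarith [h.1]
  linarith

end Pool.Agent.K7.H97.MI
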