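import Pool.Agent.K7.H97.MI.AsmA

/-!
Project MI, job ASM, second part: the constructive direction from the jobs.
-/

set_option autoImplicit false
set_option linter.unusedVariables false

open Polynomial

namespace Pool.Agent.K7.H97.MI

theorem Realizes.congr {K K' : Set Key} (h : Realizes K)
    (he : ∀ k, k ≠ Key.zero → (k ∈ K ↔ k ∈ K')) : Realizes K' := by
  obtain ⟨P, hP, hk⟩ := h
  exact ⟨P, hP, fun k hk0 => (he k hk0).symm.trans (hk k hk0)⟩

theorem sign_cases {s : SignType} (h : s ≠ 0) : s = 1 ∨ s = -1 := by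
  rcases s with _ | _ | _
  · exact absurd rfl h
  · right; rfl
  · left; rfl

/-- the keys of the values in `S` -/
def keysOf (S : Set M2) : Set Key := key '' S

theorem mem_of_key (hKey : StKey) {S : Set M2} (hS : Admissible S) {T : M2}
    (h : key T ∈ keysOf S) : T ∈ S := by
  obtain ⟨T', hT', he⟩ := h
  obtain ⟨c, g, hc, rfl⟩ := hKey.2.1 T' T he
  exact hS.smul _ (hS.conj _ hT' g) c hc

theorem rat_iff (S : Set M2) (hKey : StKey) (hS : Admissible S) {r : ℝ} {s : SignType}
    (hs : s ≠ 0) (hr : r ≠ 0) : r ∈ Rat S s ↔ Key.reg r s ∈ keysOf S := by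
  constructor
  · rintro ⟨_, T, hT, h1, h2, h3⟩
    refine ⟨T, hT, ?_⟩
    rw [key_eq_reg]
    have h4 : rr T = r := by rw [rr, h3]; field_simp
    refine ⟨h2, ?_, h4, h1⟩
    intro h5
    have := tl_eq_zero_of_dd h5
    rw [this] at h3
    have h6 : ht T ^ 2 ≠ 0 := pow_ne_zero 2 h2
    rcases mul_eq_zero.1 h3.symm with h7 | h7
    · exact hr h7
    · exact h6 h7
  · rintro ⟨T, hT, h⟩
    rw [key_eq_reg] at h
    refine ⟨hr, T, hT, h.2.2.2, h.1, ?_⟩
    rw [← h.2.2.1, rr]
    have := h.1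
    field_simp

theorem step3 (hD : StD) (A : SignType → Set ℝ) (Z : Finset ℝ) (h0 : (0 : ℝ) ∈ Z)
    (hloc : ∀ s x y, (∀ z ∈ Z, z ∉ Set.uIcc x y) → x ∈ A s → y ∈ A s)
    (hfui : ∀ s, s ≠ 0 → IsFUI (A s))
    (hR : Realizes {k | ∃ r s, k = Key.reg r s ∧ s ≠ 0 ∧ r ∈ A s ∧ r ∉ Z})
    (W : Finset (ℝ × SignType)) :
    (∀ w ∈ W, w.1 ∈ Z ∧ w.1 ≠ 0 ∧ w.2 ≠ 0 ∧ w.1 ∈ A w.2) →
    Realizes {k | ∃ r s, k = Key.reg r s ∧ s ≠ 0 ∧ r ∈ A s ∧ (r ∉ Z ∨ (r, s) ∈ W)} := by
  classical
  induction W using Finset.induction_on with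
  | empty =>
    intro _
    refine hR.congr (fun k _ => ?_)
    simp
  | insert w W hw ih =>
    intro hW
    have ih' := ih (fun w' hw' => hW w' (Finset.mem_insert_of_mem hw'))
    obtain ⟨w1, w2, w3, w4⟩ := hW w (Finset.mem_insert_self _ _)
    obtain ⟨ξ, hξA, hξz, hξZ⟩ := fui_near (hfui w.2 w3) w4 Z
    have hξ : ξ ∉ Z := fun h => hξZ ξ h hξz Set.right_mem_uIcc
    have := hD _ Z w.1 ξ w.2 ih' ?_ ?_ h0 w1 w2 w3 ⟨ξ, w.2, rfl, w3, hξA, Or.inl hξ⟩ hξz hξZ
    · refine this.congr (fun k _ => ?_)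
      simp only [Set.mem_insert_iff, Set.mem_setOf_eq, Finset.mem_insert]
      constructor
      · rintro (rfl | ⟨r, s, rfl, hs, hr, h⟩)
        · exact ⟨w.1, w.2, rfl, w3, w4, Or.inr (Or.inl rfl)⟩
        · exact ⟨r, s, rfl, hs, hr, h.imp id Or.inr⟩
      · rintro ⟨r, s, rfl, hs, hr, h⟩
        rcases h with h | h | h
        · exact Or.inr ⟨r, s, rfl, hs, hr, Or.inl h⟩
        · left; rw [← h]
        · exact Or.inr ⟨r, s, rfl, hs, hr, Or.inr h⟩
    · intro x y s hxy hx
      obtain ⟨r', s', he, hs, hr, h⟩ := hx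
      rw [Key.reg.injEq] at he
      obtain ⟨rfl, rfl⟩ := he
      have hy : y ∉ Z := fun h' => hxy y h' Set.right_mem_uIcc
      exact ⟨y, s, rfl, hs, hloc s x y hxy hr, Or.inl hy⟩
    · rintro ⟨r, s, he, _⟩
      exact Key.noConfusion he

theorem asm (hFin : StFin) (hKey : StKey) (hB1 : StB1) (hB2 : StB2) (hC : StC) (hD : StD)
    (hS : StS) (hI : StI) (hP : StP) (hR : StR) : StSuf := by
  classical
  intro S adm
  -- the ratios
  set A : SignType → Set ℝ := fun s => Rat S s with hA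
  have hA0 : ∀ r s, r ∈ A s → r ≠ 0 := fun r s h => h.1
  set J := closure (RatU S) with hJ
  obtain ⟨rp, hrp, hrp0⟩ := adm.pos
  obtain ⟨rn, hrn, hrn0⟩ := adm.neg
  have hbase : BaseOK J := baseAll hB1 hB2 J isClosed_closure ⟨rn, subset_closure hrn, hrn0⟩
    ⟨rp, subset_closure hrp, hrp0⟩ adm.conn
  obtain ⟨P, hPT, hPJ, Z0, hcov⟩ := hbase
  obtain ⟨Z1, hZ1⟩ := fui_local (adm.fui 1 (by decide))
  obtain ⟨Z2, hZ2⟩ := fui_local (adm.fui (-1) (by decide))
  set Z : Finset ℝ := insert 0 (Z0 ∪ (Z1 ∪ Z2)) with hZ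
  have h0Z : (0 : ℝ) ∈ Z := Finset.mem_insert_self _ _
  have hZ0 : ∀ z ∈ Z0, z ∈ Z := fun z hz =>
    Finset.mem_insert_of_mem (Finset.mem_union_left _ hz)
  have hZ1' : ∀ z ∈ Z1, z ∈ Z := fun z hz =>
    Finset.mem_insert_of_mem (Finset.mem_union_right _ (Finset.mem_union_left _ hz))
  have hZ2' : ∀ z ∈ Z2, z ∈ Z := fun z hz =>
    Finset.mem_insert_of_mem (Finset.mem_union_right _ (Finset.mem_union_right _ hz))
  have hloc : ∀ s x y, (∀ z ∈ Z, z ∉ Set.uIcc x y) → x ∈ A s → y ∈ A s := by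
    intro s x y h hx
    by_cases hs : s = 0
    · subst hs
      obtain ⟨_, T, _, h1, h2, _⟩ := hx
      exact absurd (sign_eq_zero_iff.1 h1) h2
    · rcases sign_cases hs with rfl | rfl
      · exact hZ1 x y (fun z hz => h z (hZ1' z hz)) hx
      · exact hZ2 x y (fun z hz => h z (hZ2' z hz)) hx
  -- a neighbourhood avoiding `Z`
  have hnb : ∀ r : ℝ, r ∉ Z → ∃ δ : ℝ, 0 < δ ∧ ∀ y, |r - y| < δ → ∀ z ∈ Z, z ∉ Set.uIcc r y := by
    intro r hr
    have hne : Z.Nonempty := ⟨0, h0Z⟩
    refine ⟨Z.inf' hne (fun c => |r - c|), ?_, ?_⟩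
    · rw [Finset.lt_inf'_iff]
      intro c hc
      exact abs_pos.2 (sub_ne_zero.2 (fun h => hr (h ▸ hc)))
    · intro y hy z hz hz'
      have h1 : Z.inf' hne (fun c => |r - c|) ≤ |r - z| := Finset.inf'_le _ hz
      have h2 : |r - z| ≤ |r - y| := by
        rw [Set.mem_uIcc] at hz'
        rcases hz' with h | h
        · rw [abs_of_nonpos (by linarith [h.1]), abs_of_nonpos (by linarith [h.1, h.2])]
          linarith [h.2]
        · rw [abs_of_nonneg (by linarith [h.2]), abs_of_nonneg (by linarith [h.1, h.2])]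
          linarith [h.1]
      linarith
  have hRU : ∀ r, r ∈ RatU S ↔ r ∈ A 1 ∨ r ∈ A (-1) := fun r => Iff.rfl
  have hRUs : ∀ (s : SignType) (r : ℝ), s ≠ 0 → r ∈ A s → r ∈ RatU S := by
    intro s r hs hr
    rcases sign_cases hs with rfl | rfl
    · exact Or.inl hr
    · exact Or.inr hr
  -- stage C
  have hK0 : Realizes {k | ∃ r s, k = Key.reg r s ∧ s ≠ 0 ∧ r ∈ A s ∧ r ∉ Z} := by
    refine hC P Z A hPT h0Z hloc ?_ ?_
    · intro x hx hxZ
      have h1 := hPJ x hx
      obtain ⟨δ, hδ, hδ2⟩ := hnb _ hxZ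
      obtain ⟨y, hy, hd⟩ := Metric.mem_closure_iff.1 h1 δ hδ
      rw [Real.dist_eq] at hd
      have h2 := hδ2 y hd
      have h3 : ∀ z ∈ Z, z ∉ Set.uIcc y (rr (P x)) := by
        intro z hz; rw [Set.uIcc_comm]; exact h2 z hz
      rcases hy with hy | hy
      · left; exact hloc 1 _ _ h3 hy
      · right; exact hloc (-1) _ _ h3 hy
    · intro s hs r hr hrZ
      have h1 : r ∈ interior J := by
        obtain ⟨δ, hδ, hδ2⟩ := hnb r hrZ
        rw [mem_interior_iff_mem_nhds, Metric.mem_nhds_iff]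
        refine ⟨δ, hδ, fun y hy => ?_⟩
        rw [Metric.mem_ball, dist_comm, Real.dist_eq] at hy
        exact subset_closure (hRUs s y hs (hloc s r y (hδ2 y hy) hr))
      exact hcov r h1 (fun h => hrZ (hZ0 r h))
  -- all regular keys with nonzero ratio
  have hK1 : Realizes {k | ∃ r s, k = Key.reg r s ∧ s ≠ 0 ∧ r ∈ A s} := by
    set W : Finset (ℝ × SignType) := (Z ×ˢ ({1, -1} : Finset SignType)).filter
      (fun w => w.1 ≠ 0 ∧ w.1 ∈ A w.2) with hW
    have := step3 hD A Z h0Z hloc (fun s hs => adm.fui s hs) hK0 W (by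
      intro w hw
      rw [hW, Finset.mem_filter, Finset.mem_product] at hw
      refine ⟨hw.1.1, hw.2.1, ?_, hw.2.2⟩
      have := hw.1.2
      rw [Finset.mem_insert, Finset.mem_singleton] at this
      rcases this with h | h <;> rw [h] <;> decide)
    refine this.congr (fun k _ => ?_)
    simp only [Set.mem_setOf_eq]
    constructor
    · rintro ⟨r, s, h1, h2, h3, _⟩; exact ⟨r, s, h1, h2, h3⟩
    · rintro ⟨r, s, h1, h2, h3⟩
      refine ⟨r, s, h1, h2, h3, ?_⟩
      by_cases hr : r ∈ Z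
      · right
        rw [hW, Finset.mem_filter, Finset.mem_product]
        refine ⟨⟨hr, ?_⟩, hA0 r s h3, h3⟩
        rcases sign_cases h2 with rfl | rfl <;> simp
      · left; exact hr
  -- a general form of the key sets from now on
  -- D : the signs of non-diagonalizable ones, E : scalars, G : infinity
  let KK : Set SignType → Set SignType → Set SignType → Set Key := fun D E G =>
    {k | (∃ r s, k = Key.reg r s ∧ s ≠ 0 ∧ r ∈ A s) ∨ (∃ s ∈ D, s ≠ 0 ∧ k = Key.reg 0 s) ∨
      (∃ s ∈ E, s ≠ 0 ∧ k = Key.sc s) ∨ (∃ s ∈ G, s ≠ 0 ∧ k = Key.inf s)}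
  have hKKloc : ∀ D E G, Local Z (KK D E G) := by
    intro D E G x y s hxy hx
    rcases hx with ⟨r, s', he, hs, hr⟩ | ⟨s', _, hs, he⟩ | ⟨s', _, hs, he⟩ | ⟨s', _, hs, he⟩
    · rw [Key.reg.injEq] at he
      obtain ⟨rfl, rfl⟩ := he
      exact Or.inl ⟨y, s, rfl, hs, hloc s x y hxy hr⟩
    · rw [Key.reg.injEq] at he
      obtain ⟨rfl, rfl⟩ := he
      exact absurd Set.left_mem_uIcc (hxy 0 h0Z)
    · exact Key.noConfusion he
    · exact Key.noConfusion he
  have hKKnil : ∀ D E G, Key.nil ∉ KK D E G := by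
    intro D E G h
    rcases h with ⟨r, s', he, _⟩ | ⟨s', _, hs, he⟩ | ⟨s', _, hs, he⟩ | ⟨s', _, hs, he⟩ <;>
      exact Key.noConfusion he
  have hKKreg : ∀ D E G (r : ℝ) (s : SignType), s ≠ 0 → r ∈ A s → Key.reg r s ∈ KK D E G :=
    fun D E G r s hs hr => Or.inl ⟨r, s, rfl, hs, hr⟩
  have hK1' : Realizes (KK ∅ ∅ ∅) := by
    refine hK1.congr (fun k _ => ?_)
    simp only [KK, Set.mem_setOf_eq, Set.mem_empty_iff_false, false_and, exists_false, or_false]
  -- closeness to zero
  have hnear0 : ∀ s : SignType, (0 : ℝ) ∈ closure (A s) → ∃ ξ ∈ A s, ξ ≠ 0 ∧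
      ∀ c ∈ Z, c ≠ 0 → c ∉ Set.uIcc 0 ξ := by
    intro s hs
    obtain ⟨ξ, h1, h2⟩ := closure_near hs Z
    exact ⟨ξ, h1, hA0 ξ s h1, h2⟩
  have hregcl : ∀ s : SignType, Key.reg 0 s ∈ keysOf S → (0 : ℝ) ∈ closure (A s) := by
    rintro s ⟨T, hT, he⟩
    rw [key_eq_reg] at he
    have h1 : dd T = 0 := by
      have := he.2.2.1
      rw [rr, div_eq_zero_iff] at this
      rcases this with h | h
      · exact h
      · exact absurd h (pow_ne_zero 2 he.1)
    have := adm.dbl T hT he.1 h1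
    rw [he.2.2.2] at this
    exact this
  have hsccl : ∀ s : SignType, Key.sc s ∈ keysOf S → (0 : ℝ) ∈ closure (A s) := by
    rintro s ⟨T, hT, he⟩
    rw [key_eq_sc] at he
    have := adm.dbl T hT he.1 (tl_eq_zero_of_dd he.2.1)
    rw [he.2.2] at this
    exact this
  -- adding the keys `reg 0 s`
  have hPstep : ∀ (D E : Set SignType) (s : SignType), s ≠ 0 → Key.reg 0 s ∈ keysOf S →
      Realizes (KK D E ∅) → Realizes (KK (insert s D) (insert s E) ∅) := by
    intro D E s hs hk hR'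
    obtain ⟨ξ, h1, h2, h3⟩ := hnear0 s (hregcl s hk)
    have := hP _ Z ξ s hR' (hKKloc _ _ _) (hKKnil _ _ _) h0Z hs (hKKreg _ _ _ ξ s hs h1) h2 h3
    refine this.congr (fun k _ => ?_)
    constructor
    · rintro (rfl | rfl | h)
      · exact Or.inr (Or.inl ⟨s, Set.mem_insert _ _, hs, rfl⟩)
      · exact Or.inr (Or.inr (Or.inl ⟨s, Set.mem_insert _ _, hs, rfl⟩))
      · rcases h with h | ⟨t, ht1, ht2, ht3⟩ | ⟨t, ht1, ht2, ht3⟩ | h
        · exact Or.inl h
        · exact Or.inr (Or.inl ⟨t, Set.mem_insert_of_mem _ ht1, ht2, ht3⟩)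
        · exact Or.inr (Or.inr (Or.inl ⟨t, Set.mem_insert_of_mem _ ht1, ht2, ht3⟩))
        · exact Or.inr (Or.inr (Or.inr h))
    · rintro (h | ⟨t, ht1, ht2, ht3⟩ | ⟨t, ht1, ht2, ht3⟩ | h)
      · exact Or.inr (Or.inr (Or.inl h))
      · rcases ht1 with rfl | ht1
        · exact Or.inl ht3
        · exact Or.inr (Or.inr (Or.inr (Or.inl ⟨t, ht1, ht2, ht3⟩)))
      · rcases ht1 with rfl | ht1
        · exact Or.inr (Or.inl ht3)
        · exact Or.inr (Or.inr (Or.inr (Or.inr (Or.inl ⟨t, ht1, ht2, ht3⟩))))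
      · exact Or.inr (Or.inr (Or.inr (Or.inr (Or.inr h))))
  set D : Set SignType := {s | s ≠ 0 ∧ Key.reg 0 s ∈ keysOf S} with hDdef
  have hKD : Realizes (KK D ∅ ∅) := by
    -- first with the scalars
    have h1 : ∃ E, Realizes (KK D E ∅) := by
      by_cases hp : (1 : SignType) ∈ D <;> by_cases hn : (-1 : SignType) ∈ D
      · refine ⟨insert (-1) (insert 1 ∅), ?_⟩
        have h2 := hPstep _ _ (-1) (by decide) hn.2 (hPstep _ _ 1 (by decide) hp.2 hK1')
        have h3 : (insert (-1) (insert 1 ∅) : Set SignType) = D := by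
          ext s
          simp only [Set.mem_insert_iff, Set.mem_empty_iff_false, or_false]
          constructor
          · rintro (rfl | rfl)
            · exact hn
            · exact hp
          · intro h
            rcases sign_cases h.1 with rfl | rfl
            · right; rfl
            · left; rfl
        rw [h3] at h2 ⊢
        exact h2
      · refine ⟨insert 1 ∅, ?_⟩
        have h2 := hPstep _ _ 1 (by decide) hp.2 hK1'
        have h3 : (insert 1 ∅ : Set SignType) = D := by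
          ext s
          simp only [Set.mem_insert_iff, Set.mem_empty_iff_false, or_false]
          constructor
          · rintro rfl; exact hp
          · intro h
            rcases sign_cases h.1 with rfl | rfl
            · rfl
            · exact absurd h hn
        rw [h3] at h2 ⊢
        exact h2
      · refine ⟨insert (-1) ∅, ?_⟩
        have h2 := hPstep _ _ (-1) (by decide) hn.2 hK1'
        have h3 : (insert (-1) ∅ : Set SignType) = D := by
          ext s
          simp only [Set.mem_insert_iff, Set.mem_empty_iff_false, or_false]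
          constructor
          · rintro rfl; exact hn
          · intro h
            rcases sign_cases h.1 with rfl | rfl
            · exact absurd h hp
            · rfl
        rw [h3] at h2 ⊢
        exact h2
      · refine ⟨∅, ?_⟩
        have h3 : (∅ : Set SignType) = D := by
          ext s
          simp only [Set.mem_empty_iff_false, false_iff]
          intro h
          rcases sign_cases h.1 with rfl | rfl
          · exact hp h
          · exact hn h
        rw [← h3]
        exact hK1'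
    obtain ⟨E, hE⟩ := h1
    refine (hR.1 _ hE).congr (fun k _ => ?_)
    constructor
    · rintro ⟨h | h | ⟨t, _, _, h⟩ | h, h2⟩
      · exact Or.inl h
      · exact Or.inr (Or.inl h)
      · exact absurd h (h2 t)
      · exact Or.inr (Or.inr (Or.inr h))
    · rintro (h | h | ⟨t, h, _⟩ | ⟨t, h, _⟩)
      · refine ⟨Or.inl h, ?_⟩
        obtain ⟨r, s, rfl, _⟩ := h
        intro s' h'; exact Key.noConfusion h'
      · refine ⟨Or.inr (Or.inl h), ?_⟩
        obtain ⟨s, _, _, rfl⟩ := h
        intro s' h'; exact Key.noConfusion h'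
      · exact absurd h (by simp)
      · exact absurd h (by simp)
  -- adding scalars
  have hSstep : ∀ (E : Set SignType) (s : SignType), s ≠ 0 → Key.sc s ∈ keysOf S →
      Realizes (KK D E ∅) → Realizes (KK D (insert s E) ∅) := by
    intro E s hs hk hR'
    obtain ⟨ξ, h1, h2, h3⟩ := hnear0 s (hsccl s hk)
    have := hS _ Z ξ s hR' (hKKloc _ _ _) (hKKnil _ _ _) h0Z hs (hKKreg _ _ _ ξ s hs h1) h2 h3
    refine this.congr (fun k _ => ?_)
    constructor
    · rintro (rfl | h)
      · exact Or.inr (Or.inr (Or.inl ⟨s, Set.mem_insert _ _, hs, rfl⟩))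
      · rcases h with h | h | ⟨t, ht1, ht2, ht3⟩ | h
        · exact Or.inl h
        · exact Or.inr (Or.inl h)
        · exact Or.inr (Or.inr (Or.inl ⟨t, Set.mem_insert_of_mem _ ht1, ht2, ht3⟩))
        · exact Or.inr (Or.inr (Or.inr h))
    · rintro (h | h | ⟨t, ht1, ht2, ht3⟩ | h)
      · exact Or.inr (Or.inl h)
      · exact Or.inr (Or.inr (Or.inl h))
      · rcases ht1 with rfl | ht1
        · exact Or.inl ht3
        · exact Or.inr (Or.inr (Or.inr (Or.inl ⟨t, ht1, ht2, ht3⟩)))
      · exact Or.inr (Or.inr (Or.inr (Or.inr h)))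
  -- adding a set of signs
  have hset : ∀ (Q : SignType → Prop) (KE : Set SignType → Set Key),
      (∀ (E : Set SignType) (s : SignType), s ≠ 0 → Q s → Realizes (KE E) →
        Realizes (KE (insert s E))) → Realizes (KE ∅) →
      Realizes (KE {s | s ≠ 0 ∧ Q s}) := by
    intro Q KE hstep h0
    by_cases hp : Q 1 <;> by_cases hn : Q (-1)
    · have h2 := hstep _ (-1) (by decide) hn (hstep _ 1 (by decide) hp h0)
      have h3 : (insert (-1) (insert 1 ∅) : Set SignType) = {s | s ≠ 0 ∧ Q s} := by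
        ext s
        simp only [Set.mem_insert_iff, Set.mem_empty_iff_false, or_false, Set.mem_setOf_eq]
        constructor
        · rintro (rfl | rfl)
          · exact ⟨by decide, hn⟩
          · exact ⟨by decide, hp⟩
        · intro h
          rcases sign_cases h.1 with rfl | rfl
          · right; rfl
          · left; rfl
      rw [h3] at h2; exact h2
    · have h2 := hstep _ 1 (by decide) hp h0
      have h3 : (insert 1 ∅ : Set SignType) = {s | s ≠ 0 ∧ Q s} := by
        ext s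
        simp only [Set.mem_insert_iff, Set.mem_empty_iff_false, or_false, Set.mem_setOf_eq]
        constructor
        · rintro rfl; exact ⟨by decide, hp⟩
        · intro h
          rcases sign_cases h.1 with rfl | rfl
          · rfl
          · exact absurd h.2 hn
      rw [h3] at h2; exact h2
    · have h2 := hstep _ (-1) (by decide) hn h0
      have h3 : (insert (-1) ∅ : Set SignType) = {s | s ≠ 0 ∧ Q s} := by
        ext s
        simp only [Set.mem_insert_iff, Set.mem_empty_iff_false, or_false, Set.mem_setOf_eq]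
        constructor
        · rintro rfl; exact ⟨by decide, hn⟩
        · intro h
          rcases sign_cases h.1 with rfl | rfl
          · exact absurd h.2 hp
          · rfl
      rw [h3] at h2; exact h2
    · have h3 : (∅ : Set SignType) = {s | s ≠ 0 ∧ Q s} := by
        ext s
        simp only [Set.mem_empty_iff_false, false_iff, Set.mem_setOf_eq]
        intro h
        rcases sign_cases h.1 with rfl | rfl
        · exact hp h.2
        · exact hn h.2
      rw [← h3]; exact h0
  set E : Set SignType := {s | s ≠ 0 ∧ Key.sc s ∈ keysOf S} with hEdef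
  have hKE : Realizes (KK D E ∅) := hset (fun s => Key.sc s ∈ keysOf S) (fun E => KK D E ∅)
    hSstep hKD
  -- adding infinity
  have hIstep : ∀ (G : Set SignType) (s : SignType), s ≠ 0 → Key.inf s ∈ keysOf S →
      Realizes (KK D E G) → Realizes (KK D E (insert s G)) := by
    intro G s hs hk hR'
    have hadd : Realizes (insert (Key.inf s) (KK D E G)) := by
      obtain ⟨T, hT, he⟩ := hk
      rw [key_eq_inf] at he
      rcases sign_cases hs with rfl | rfl
      · have h1 := adm.infp T hT he.1 (sign_eq_one_iff.1 he.2.2)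
        rw [not_bddAbove_iff] at h1
        have hne : Z.Nonempty := ⟨0, h0Z⟩
        obtain ⟨ξ, hξ, hξ2⟩ := h1 (Z.max' hne)
        have hξ3 : ∀ c ∈ Z, c < ξ := fun c hc => lt_of_le_of_lt (Z.le_max' c hc) hξ2
        rcases hξ with hξ | hξ
        · exact (hI _ Z ξ 1 hR' (hKKloc _ _ _) (hKKnil _ _ _) h0Z (by decide)
            (hKKreg _ _ _ ξ 1 (by decide) hξ)).1 hξ3
        · exact (hI _ Z ξ (-1) hR' (hKKloc _ _ _) (hKKnil _ _ _) h0Z (by decide)
            (hKKreg _ _ _ ξ (-1) (by decide) hξ)).1 hξ3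
      · have h1 := adm.infn T hT he.1 (sign_eq_neg_one_iff.1 he.2.2)
        rw [not_bddBelow_iff] at h1
        have hne : Z.Nonempty := ⟨0, h0Z⟩
        obtain ⟨ξ, hξ, hξ2⟩ := h1 (Z.min' hne)
        have hξ3 : ∀ c ∈ Z, ξ < c := fun c hc => lt_of_lt_of_le hξ2 (Z.min'_le c hc)
        rcases hξ with hξ | hξ
        · exact (hI _ Z ξ 1 hR' (hKKloc _ _ _) (hKKnil _ _ _) h0Z (by decide)
            (hKKreg _ _ _ ξ 1 (by decide) hξ)).2 hξ3
        · exact (hI _ Z ξ (-1) hR' (hKKloc _ _ _) (hKKnil _ _ _) h0Z (by decide)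
            (hKKreg _ _ _ ξ (-1) (by decide) hξ)).2 hξ3
    refine hadd.congr (fun k _ => ?_)
    constructor
    · rintro (rfl | h)
      · exact Or.inr (Or.inr (Or.inr ⟨s, Set.mem_insert _ _, hs, rfl⟩))
      · rcases h with h | h | h | ⟨t, ht1, ht2, ht3⟩
        · exact Or.inl h
        · exact Or.inr (Or.inl h)
        · exact Or.inr (Or.inr (Or.inl h))
        · exact Or.inr (Or.inr (Or.inr ⟨t, Set.mem_insert_of_mem _ ht1, ht2, ht3⟩))
    · rintro (h | h | h | ⟨t, ht1, ht2, ht3⟩)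
      · exact Or.inr (Or.inl h)
      · exact Or.inr (Or.inr (Or.inl h))
      · exact Or.inr (Or.inr (Or.inr (Or.inl h)))
      · rcases ht1 with rfl | ht1
        · exact Or.inl ht3
        · exact Or.inr (Or.inr (Or.inr (Or.inr ⟨t, ht1, ht2, ht3⟩)))
  set G : Set SignType := {s | s ≠ 0 ∧ Key.inf s ∈ keysOf S} with hGdef
  have hKG : Realizes (KK D E G) := hset (fun s => Key.inf s ∈ keysOf S) (fun G => KK D E G)
    hIstep hKE
  -- the nilpotent ones
  have hall : Realizes (keysOf S) := by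
    have hkey : ∀ k : Key, k ≠ Key.zero → k ≠ Key.nil → (k ∈ KK D E G ↔ k ∈ keysOf S) := by
      intro k hk0 hkn
      constructor
      · rintro (⟨r, s, rfl, hs, hr⟩ | ⟨s, h1, _, rfl⟩ | ⟨s, h1, _, rfl⟩ | ⟨s, h1, _, rfl⟩)
        · exact (rat_iff S hKey adm hs (hA0 r s hr)).1 hr
        · exact h1.2
        · exact h1.2
        · exact h1.2
      · rintro ⟨T, hT, rfl⟩
        rcases key_cases T with h | h | h | h | h
        · exact absurd h.2 hk0
        · have hs : SignType.sign (ht T) ≠ 0 := fun h' => h.1 (sign_eq_zero_iff.1 h')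
          rw [h.2.2]
          exact Or.inr (Or.inr (Or.inl ⟨_, ⟨hs, T, hT, h.2.2⟩, hs, rfl⟩))
        · have hs : SignType.sign (ht T) ≠ 0 := fun h' => h.1 (sign_eq_zero_iff.1 h')
          rw [h.2.2]
          by_cases hr : rr T = 0
          · rw [hr]
            exact Or.inr (Or.inl ⟨_, ⟨hs, T, hT, by rw [h.2.2, hr]⟩, hs, rfl⟩)
          · exact Or.inl ⟨_, _, rfl, hs, (rat_iff S hKey adm hs hr).2 ⟨T, hT, h.2.2⟩⟩
        · have hs : SignType.sign (dd T) ≠ 0 := fun h' => h.2.1 (sign_eq_zero_iff.1 h')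
          rw [h.2.2.2]
          exact Or.inr (Or.inr (Or.inr ⟨_, ⟨hs, T, hT, h.2.2.2⟩, hs, rfl⟩))
        · exact absurd h.2.2.2 hkn
    by_cases hn : Key.nil ∈ keysOf S
    · have := hR.2 _ hKG (by
        rcases hrp with hr | hr
        · exact ⟨Key.reg rp 1, hKKreg _ _ _ rp 1 (by decide) hr, by simp, by simp⟩
        · exact ⟨Key.reg rp (-1), hKKreg _ _ _ rp (-1) (by decide) hr, by simp, by simp⟩)
      refine this.congr (fun k hk0 => ?_)
      by_cases hkn : k = Key.nil
      · subst hkn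
        exact iff_of_true (Set.mem_insert _ _) hn
      · rw [Set.mem_insert_iff, or_iff_right hkn]
        exact hkey k hk0 hkn
    · refine hKG.congr (fun k hk0 => ?_)
      by_cases hkn : k = Key.nil
      · subst hkn
        exact iff_of_false (hKKnil _ _ _) hn
      · exact hkey k hk0 hkn
  -- the end
  obtain ⟨Q, hQ, hk⟩ := hall
  obtain ⟨m, p, hp, hip⟩ := hFin Q hQ
  refine ⟨m, p, hp, ?_⟩
  rw [hip]
  ext T
  constructor
  · rintro ⟨c, x, hc, rfl⟩
    rcases hc.eq_or_lt with rfl | hc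
    · rw [zero_smul]; exact adm.zero
    · by_cases h0 : Q x = 0
      · rw [h0, smul_zero]; exact adm.zero
      · have h1 : key (Q x) ≠ Key.zero := fun h => h0 (key_eq_zero.1 h)
        have h2 := (hk _ h1).2 ⟨x, rfl⟩
        exact adm.smul _ (mem_of_key hKey adm h2) c hc
  · intro hT
    by_cases h0 : T = 0
    · exact ⟨0, fun _ => 0, le_rfl, by rw [h0, zero_smul]⟩
    · have h1 : key T ≠ Key.zero := fun h => h0 (key_eq_zero.1 h)
      obtain ⟨x, hx⟩ := (hk _ h1).1 ⟨T, hT, rfl⟩
      obtain ⟨c, g, hc, he⟩ := hKey.2.1 _ _ hx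
      refine ⟨c, fun i => (g : M2) * x i * ((g⁻¹ : M2ˣ) : M2), hc.le, ?_⟩
      rw [hKey.2.2 Q hQ g x, he]

end Pool.Agent.K7.H97.MI
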