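import Pool.Agent.K7.H97.MI.Defs

/-!
Project MI: basic lemmas (closure of the trace ring, keys, homogenisation, the function theta).
-/

set_option autoImplicit false
set_option linter.unusedVariables false

open Polynomial

namespace Pool.Agent.K7.H97.MI

/-! ### half trace, traceless part -/

theorem ht_add (S T : M2) : ht (S + T) = ht S + ht T := by
  simp [ht, Matrix.trace_add]; ring

theorem ht_smul (c : ℝ) (T : M2) : ht (c • T) = c * ht T := by
  simp [ht, Matrix.trace_smul]; ring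

theorem ht_one : ht (1 : M2) = 1 := by
  simp [ht, Matrix.trace_fin_two]

theorem ht_smul_one (c : ℝ) : ht (c • (1 : M2)) = c := by rw [ht_smul, ht_one, mul_one]

theorem ht_of_trace {T : M2} (h : T.trace = 0) : ht T = 0 := by rw [ht, h, zero_div]

theorem ht_tl (T : M2) : ht (tl T) = 0 := by
  simp only [ht, tl, Matrix.trace_sub, Matrix.trace_smul, Matrix.trace_one]
  simp

theorem trace_tl (T : M2) : (tl T).trace = 0 := by
  have := ht_tl T
  rw [ht] at this; linarith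

theorem ht_add_tl (T : M2) : ht T • (1 : M2) + tl T = T := by simp [tl]

theorem tl_smul (c : ℝ) (T : M2) : tl (c • T) = c • tl T := by
  rw [tl, tl, ht_smul, smul_sub, smul_smul]

theorem eq_smul_one_iff (T : M2) : T = ht T • (1 : M2) ↔ tl T = 0 := by
  rw [tl, sub_eq_zero]

theorem tl_mul_tl (T : M2) : tl T * tl T = dd T • (1 : M2) := by
  ext i j
  fin_cases i <;> fin_cases j <;>
    simp [tl, dd, ht, Matrix.mul_apply, Fin.sum_univ_two, Matrix.trace_fin_two, Matrix.det_fin_two]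
    <;> ring

theorem sq_of_trace_zero {w : M2} (hw : w.trace = 0) : w * w = (-w.det) • (1 : M2) := by
  have h : w 1 1 = - w 0 0 := by rw [Matrix.trace_fin_two] at hw; linarith
  ext i j
  fin_cases i <;> fin_cases j <;>
    simp [Matrix.mul_apply, Fin.sum_univ_two, Matrix.det_fin_two, h] <;> ring

/-- half trace of `a + w`, `w` traceless -/
theorem ht_mk (a : ℝ) {w : M2} (hw : w.trace = 0) : ht (a • (1 : M2) + w) = a := by
  rw [ht_add, ht_smul_one, ht_of_trace hw, add_zero]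

theorem tl_mk (a : ℝ) {w : M2} (hw : w.trace = 0) : tl (a • (1 : M2) + w) = w := by
  rw [tl, ht_mk a hw]; abel

theorem dd_eq_neg_det_tl (T : M2) : dd T = -(tl T).det := by
  simp [tl, dd, ht, Matrix.trace_fin_two, Matrix.det_fin_two]; ring

theorem dd_mk (a : ℝ) {w : M2} (hw : w.trace = 0) : dd (a • (1 : M2) + w) = - w.det := by
  rw [dd_eq_neg_det_tl, tl_mk a hw]

theorem dd_of_sq {T : M2} {c : ℝ} (h : tl T * tl T = c • (1 : M2)) : dd T = c := by
  rw [tl_mul_tl] at h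
  have := congrFun (congrFun h 0) 0
  simpa using this

/-- `a + m • tl T` -/
theorem ht_mk_smul (a m : ℝ) (T : M2) : ht (a • (1 : M2) + m • tl T) = a :=
  ht_mk a (by rw [Matrix.trace_smul, trace_tl, smul_zero])

theorem tl_mk_smul (a m : ℝ) (T : M2) : tl (a • (1 : M2) + m • tl T) = m • tl T :=
  tl_mk a (by rw [Matrix.trace_smul, trace_tl, smul_zero])

theorem dd_mk_smul (a m : ℝ) (T : M2) : dd (a • (1 : M2) + m • tl T) = m ^ 2 * dd T := by
  apply dd_of_sq
  rw [tl_mk_smul, smul_mul_smul_comm, tl_mul_tl, smul_smul]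
  ring_nf

theorem dd_smul (c : ℝ) (T : M2) : dd (c • T) = c ^ 2 * dd T := by
  simp [dd, Matrix.trace_smul, Matrix.det_smul]; ring

theorem tl_eq_zero_of_dd {T : M2} (h : tl T = 0) : dd T = 0 := by
  rw [dd_eq_neg_det_tl, h]; simp [Matrix.det_fin_two]

theorem det_eq (T : M2) : T.det = ht T ^ 2 - dd T := by simp [ht, dd]

/-! ### keys -/

theorem key_zero : key 0 = Key.zero := by simp [key]

theorem key_eq_zero {T : M2} : key T = Key.zero ↔ T = 0 := by
  constructor
  · intro h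
    by_contra h0
    unfold key at h
    rw [if_neg h0] at h
    split_ifs at h
  · rintro rfl; exact key_zero

theorem key_sc {T : M2} (h0 : T ≠ 0) (h : tl T = 0) : key T = Key.sc (SignType.sign (ht T)) := by
  unfold key
  rw [if_neg h0, if_pos ((eq_smul_one_iff T).2 h)]

theorem ne_zero_of_tl {T : M2} (h : tl T ≠ 0) : T ≠ 0 := by
  rintro rfl; apply h; simp [tl, ht]

theorem ne_zero_of_ht {T : M2} (h : ht T ≠ 0) : T ≠ 0 := by
  rintro rfl; apply h; simp [ht]

theorem key_reg {T : M2} (h : tl T ≠ 0) (h1 : ht T ≠ 0) :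
    key T = Key.reg (rr T) (SignType.sign (ht T)) := by
  unfold key
  rw [if_neg (ne_zero_of_tl h), if_neg (fun h' => h ((eq_smul_one_iff T).1 h')), if_pos h1]

theorem key_inf {T : M2} (h1 : ht T = 0) (h2 : dd T ≠ 0) :
    key T = Key.inf (SignType.sign (dd T)) := by
  have h : tl T ≠ 0 := fun h => h2 (tl_eq_zero_of_dd h)
  unfold key
  rw [if_neg (ne_zero_of_tl h), if_neg (fun h' => h ((eq_smul_one_iff T).1 h')),
    if_neg (not_not.2 h1), if_pos h2]

theorem key_nil {T : M2} (h : tl T ≠ 0) (h1 : ht T = 0) (h2 : dd T = 0) : key T = Key.nil := by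
  unfold key
  rw [if_neg (ne_zero_of_tl h), if_neg (fun h' => h ((eq_smul_one_iff T).1 h')),
    if_neg (not_not.2 h1), if_neg (not_not.2 h2)]

/-- the five cases -/
theorem key_cases (T : M2) :
    (T = 0 ∧ key T = Key.zero) ∨
    (ht T ≠ 0 ∧ tl T = 0 ∧ key T = Key.sc (SignType.sign (ht T))) ∨
    (ht T ≠ 0 ∧ tl T ≠ 0 ∧ key T = Key.reg (rr T) (SignType.sign (ht T))) ∨
    (ht T = 0 ∧ dd T ≠ 0 ∧ tl T ≠ 0 ∧ key T = Key.inf (SignType.sign (dd T))) ∨
    (ht T = 0 ∧ dd T = 0 ∧ tl T ≠ 0 ∧ key T = Key.nil) := by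
  by_cases h0 : T = 0
  · left; exact ⟨h0, h0 ▸ key_zero⟩
  right
  by_cases h1 : tl T = 0
  · left
    have h2 : ht T ≠ 0 := by
      intro h; apply h0; rw [← ht_add_tl T, h, h1]; simp
    exact ⟨h2, h1, key_sc h0 h1⟩
  right
  by_cases h2 : ht T = 0
  · right
    by_cases h3 : dd T = 0
    · right; exact ⟨h2, h3, h1, key_nil h1 h2 h3⟩
    · left; exact ⟨h2, h3, h1, key_inf h2 h3⟩
  · left; exact ⟨h2, h1, key_reg h1 h2⟩

theorem key_eq_reg {T : M2} {r : ℝ} {s : SignType} :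
    key T = Key.reg r s ↔ ht T ≠ 0 ∧ tl T ≠ 0 ∧ rr T = r ∧ SignType.sign (ht T) = s := by
  rcases key_cases T with h | h | h | h | h
  · rw [h.2]; simp [h.1, ht]
  · rw [h.2.2]; simp [h.2.1]
  · rw [h.2.2]; simp [h.1, h.2.1]
  · rw [h.2.2.2]; simp [h.1]
  · rw [h.2.2.2]; simp [h.1]

theorem key_eq_sc {T : M2} {s : SignType} :
    key T = Key.sc s ↔ ht T ≠ 0 ∧ tl T = 0 ∧ SignType.sign (ht T) = s := by
  rcases key_cases T with h | h | h | h | h
  · rw [h.2]; simp [h.1, ht]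
  · rw [h.2.2]; simp [h.1, h.2.1]
  · rw [h.2.2]; simp [h.1, h.2.1]
  · rw [h.2.2.2]; simp [h.1]
  · rw [h.2.2.2]; simp [h.1]

theorem key_eq_inf {T : M2} {s : SignType} :
    key T = Key.inf s ↔ ht T = 0 ∧ dd T ≠ 0 ∧ SignType.sign (dd T) = s := by
  rcases key_cases T with h | h | h | h | h
  · rw [h.2]; simp [h.1, dd]
  · rw [h.2.2]; simp [h.1]
  · rw [h.2.2]; simp [h.1]
  · rw [h.2.2.2]; simp [h.1, h.2.1]
  · rw [h.2.2.2]; simp [h.1, h.2.1]

theorem key_eq_nil {T : M2} :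
    key T = Key.nil ↔ ht T = 0 ∧ dd T = 0 ∧ tl T ≠ 0 := by
  rcases key_cases T with h | h | h | h | h
  · rw [h.2]; simp [h.1, tl, ht]
  · rw [h.2.2]; simp [h.1]
  · rw [h.2.2]; simp [h.1]
  · rw [h.2.2.2]; simp [h.1, h.2.1]
  · rw [h.2.2.2]; simp [h.1, h.2.1, h.2.2.1]

/-- multiplication by a positive number does not change the key -/
theorem key_smul {c : ℝ} (hc : 0 < c) (T : M2) : key (c • T) = key T := by
  have hht : ht (c • T) = c * ht T := ht_smul c T
  have hs : SignType.sign (c * ht T) = SignType.sign (ht T) := by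
    rw [sign_mul, sign_pos hc, one_mul]
  rcases key_cases T with h | h | h | h | h
  · rw [h.2, h.1, smul_zero, key_zero]
  · rw [h.2.2, key_eq_sc, hht, tl_smul, h.2.1, smul_zero]
    exact ⟨mul_ne_zero hc.ne' h.1, rfl, hs⟩
  · rw [h.2.2, key_eq_reg, hht, tl_smul]
    refine ⟨mul_ne_zero hc.ne' h.1, smul_ne_zero hc.ne' h.2.1, ?_, hs⟩
    rw [rr, rr, hht, dd_smul, mul_pow, mul_div_mul_left _ _ (pow_ne_zero 2 hc.ne')]
  · rw [h.2.2.2, key_eq_inf, hht, h.1, mul_zero, dd_smul]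
    refine ⟨rfl, mul_ne_zero (pow_ne_zero 2 hc.ne') h.2.1, ?_⟩
    rw [sign_mul, sign_pos (pow_pos hc 2), one_mul]
  · rw [h.2.2.2, key_eq_nil, hht, h.1, mul_zero, dd_smul, h.2.1, mul_zero, tl_smul]
    exact ⟨rfl, rfl, smul_ne_zero hc.ne' h.2.2.1⟩

/-! ### closure properties of the trace ring -/

theorem TR.zero : TR (fun _ => (0 : M2)) := by
  have := TR.const 0
  simpa using this

theorem TR.one : TR (fun _ => (1 : M2)) := by
  have := TR.const 1
  simpa using this

theorem PR.const (r : ℝ) : PR (fun _ => r) := TR.const r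

theorem PR.smul {f : Om → ℝ} {P : Om → M2} (hf : PR f) (hP : TR P) : TR (fun x => f x • P x) := by
  have := TR.mul hf hP
  simpa [smul_mul_assoc] using this

theorem TR.smul {P : Om → M2} (c : ℝ) (hP : TR P) : TR (fun x => c • P x) :=
  PR.smul (PR.const c) hP

theorem TR.neg {P : Om → M2} (hP : TR P) : TR (fun x => - P x) := by
  have := TR.smul (-1) hP
  simpa using this

theorem TR.sub {P Q : Om → M2} (hP : TR P) (hQ : TR Q) : TR (fun x => P x - Q x) := by
  have := TR.add hP hQ.neg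
  simpa [sub_eq_add_neg] using this

theorem TR.pow {P : Om → M2} (hP : TR P) (n : ℕ) : TR (fun x => P x ^ n) := by
  induction n with
  | zero => simpa using TR.one
  | succ n ih => simp only [pow_succ]; exact ih.mul hP

theorem PR.add {f g : Om → ℝ} (hf : PR f) (hg : PR g) : PR (fun x => f x + g x) := by
  have := TR.add hf hg
  simpa [PR, add_smul] using this

theorem PR.mul {f g : Om → ℝ} (hf : PR f) (hg : PR g) : PR (fun x => f x * g x) := by
  have := PR.smul hf hg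
  simpa [PR, mul_smul] using this

theorem PR.neg {f : Om → ℝ} (hf : PR f) : PR (fun x => - f x) := by
  have := TR.neg hf
  simpa [PR] using this

theorem PR.sub {f g : Om → ℝ} (hf : PR f) (hg : PR g) : PR (fun x => f x - g x) := by
  have := hf.add hg.neg
  simpa [sub_eq_add_neg] using this

theorem PR.pow {f : Om → ℝ} (hf : PR f) (n : ℕ) : PR (fun x => f x ^ n) := by
  induction n with
  | zero => simpa using PR.const 1
  | succ n ih => simp only [pow_succ]; exact ih.mul hf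

theorem PR.sum {ι : Type} (t : Finset ι) {f : ι → Om → ℝ} (hf : ∀ i ∈ t, PR (f i)) :
    PR (fun x => ∑ i ∈ t, f i x) := by
  classical
  induction t using Finset.induction_on with
  | empty => simpa using PR.const 0
  | insert a t ha ih =>
    simp only [Finset.sum_insert ha]
    exact (hf a (Finset.mem_insert_self _ _)).add
      (ih (fun i hi => hf i (Finset.mem_insert_of_mem hi)))

theorem PR.poly {f : Om → ℝ} (hf : PR f) (a : ℝ[X]) : PR (fun x => a.eval (f x)) := by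
  induction a using Polynomial.induction_on' with
  | add p q hp hq => simp only [eval_add]; exact hp.add hq
  | monomial n a => simp only [eval_monomial]; exact (PR.const a).mul (hf.pow n)

theorem TR.trace {P : Om → M2} (hP : TR P) : PR (fun x => (P x).trace) := hP.tr

theorem TR.ht {P : Om → M2} (hP : TR P) : PR (fun x => MI.ht (P x)) := by
  have := (PR.const (1 / 2)).mul hP.trace
  have h2 : (fun x => MI.ht (P x)) = fun x => 1 / 2 * (P x).trace := by
    funext x; rw [MI.ht]; ring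
  rw [h2]; exact this

theorem TR.tl {P : Om → M2} (hP : TR P) : TR (fun x => MI.tl (P x)) :=
  hP.sub hP.ht

theorem TR.dd {P : Om → M2} (hP : TR P) : PR (fun x => MI.dd (P x)) := by
  have h1 := hP.tl.mul hP.tl
  have h2 : (fun x => MI.tl (P x) * MI.tl (P x)) = fun x => MI.dd (P x) • (1 : M2) := by
    funext x; exact tl_mul_tl _
  rw [h2] at h1; exact h1

theorem TR.det {P : Om → M2} (hP : TR P) : PR (fun x => (P x).det) := by
  have h := (hP.ht.pow 2).sub hP.dd
  have h2 : (fun x => (P x).det) = fun x => MI.ht (P x) ^ 2 - MI.dd (P x) := by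
    funext x; exact det_eq _
  rw [h2]; exact h

theorem TR.local {P : Om → M2} (h : TR P) :
    ∃ N : ℕ, ∀ x x' : Om, (∀ i < N, x i = x' i) → P x = P x' := by
  induction h with
  | const r => exact ⟨0, fun _ _ _ => rfl⟩
  | var i => exact ⟨i + 1, fun x x' h => h i (Nat.lt_succ_self i)⟩
  | @add f g hf hg ihf ihg =>
    obtain ⟨N, hN⟩ := ihf
    obtain ⟨M, hM⟩ := ihg
    refine ⟨max N M, fun x x' h => ?_⟩
    simp only
    rw [hN x x' (fun i hi => h i (lt_of_lt_of_le hi (le_max_left _ _))),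
      hM x x' (fun i hi => h i (lt_of_lt_of_le hi (le_max_right _ _)))]
  | @mul f g hf hg ihf ihg =>
    obtain ⟨N, hN⟩ := ihf
    obtain ⟨M, hM⟩ := ihg
    refine ⟨max N M, fun x x' h => ?_⟩
    simp only
    rw [hN x x' (fun i hi => h i (lt_of_lt_of_le hi (le_max_left _ _))),
      hM x x' (fun i hi => h i (lt_of_lt_of_le hi (le_max_right _ _)))]
  | @tr f hf ihf =>
    obtain ⟨N, hN⟩ := ihf
    refine ⟨N, fun x x' h => ?_⟩
    simp only
    rw [hN x x' h]

theorem fresh {P : Om → M2} {N : ℕ} (hN : ∀ x x' : Om, (∀ i < N, x i = x' i) → P x = P x')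
    {n : ℕ} (hn : N ≤ n) (x : Om) (v : M2) : P (Function.update x n v) = P x :=
  hN _ _ (fun i hi => Function.update_of_ne (by omega) _ _)

/-! ### homogenisation -/

/-- the homogenisation of `N`, of degree `2 k` -/
noncomputable def Nh (N : ℝ[X]) (k : ℕ) (d s : ℝ) : ℝ :=
  ∑ i ∈ Finset.range (2 * k), N.coeff i * d ^ i * s ^ (2 * k - i)

theorem Nh_eq {N : ℝ[X]} {k : ℕ} (hk : N.natDegree < 2 * k) {d s : ℝ} (hs : s ≠ 0) :
    Nh N k d s = s ^ (2 * k) * N.eval (d / s) := by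
  rw [Nh, Polynomial.eval_eq_sum_range' hk, Finset.mul_sum]
  apply Finset.sum_congr rfl
  intro i hi
  have h1 : s ^ (2 * k) = s ^ i * s ^ (2 * k - i) := by
    rw [← pow_add]; congr 1; have := Finset.mem_range.1 hi; omega
  rw [h1, div_pow]
  field_simp

theorem Nh_zero (N : ℝ[X]) (k : ℕ) (d : ℝ) : Nh N k d 0 = 0 := by
  rw [Nh]
  apply Finset.sum_eq_zero
  intro i hi
  have : 2 * k - i ≠ 0 := by have := Finset.mem_range.1 hi; omega
  rw [zero_pow this, mul_zero]

theorem PR.Nh (N : ℝ[X]) (k : ℕ) {d s : Om → ℝ} (hd : PR d) (hs : PR s) :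
    PR (fun x => MI.Nh N k (d x) (s x)) := by
  unfold MI.Nh
  exact PR.sum _ (fun i _ => ((PR.const _).mul (hd.pow i)).mul (hs.pow _))

/-- `q = ht ^ 4 + dd ^ 2` -/
noncomputable def qq (T : M2) : ℝ := ht T ^ 4 + dd T ^ 2

theorem qq_nonneg (T : M2) : 0 ≤ qq T := by unfold qq; positivity

theorem qq_pos {T : M2} (h : ht T ≠ 0) : 0 < qq T := by
  unfold qq; have : 0 < ht T ^ 4 := by positivity
  positivity

theorem qq_pos' {T : M2} (h : dd T ≠ 0) : 0 < qq T := by
  unfold qq; have : 0 < dd T ^ 2 := by positivity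
  positivity

theorem qq_eq {T : M2} (h : ht T ≠ 0) : qq T = ht T ^ 4 * (1 + rr T ^ 2) := by
  rw [qq, rr]; field_simp

/-- in terms of `r = rr T`: `Nh = q ^ k * (N r / (1 + r ^ 2) ^ k)` -/
theorem Nh_qq {N : ℝ[X]} {k : ℕ} (hk : N.natDegree < 2 * k) {T : M2} (h : ht T ≠ 0) :
    Nh N k (dd T) (ht T ^ 2) = qq T ^ k * (N.eval (rr T) / (1 + rr T ^ 2) ^ k) := by
  rw [Nh_eq hk (pow_ne_zero 2 h), qq_eq h, mul_pow, rr]
  have h1 : (1 + (dd T / ht T ^ 2) ^ 2) ≠ 0 := by positivity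
  field_simp
  ring

theorem TR.qq {P : Om → M2} (hP : TR P) : PR (fun x => MI.qq (P x)) :=
  (hP.ht.pow 4).add (hP.dd.pow 2)

theorem TR.Nh {P : Om → M2} (hP : TR P) (N : ℝ[X]) (k : ℕ) :
    PR (fun x => MI.Nh N k (MI.dd (P x)) (MI.ht (P x) ^ 2)) :=
  PR.Nh N k hP.dd (hP.ht.pow 2)

/-! ### the function theta = th / (1 + z ^ 2) ^ 3 -/

noncomputable def th (z : ℝ) : ℝ := 2 * z ^ 2 * (1 + z) ^ 2

noncomputable def td (z : ℝ) : ℝ := (1 + z ^ 2) ^ 3

theorem td_pos (z : ℝ) : 0 < td z := by unfold td; positivity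

theorem th_nonneg (z : ℝ) : 0 ≤ th z := by unfold th; positivity

theorem th_le (z : ℝ) : th z ≤ td z := by
  unfold th td
  have h1 : 4 * z ^ 2 ≤ (1 + z ^ 2) ^ 2 := by nlinarith [sq_nonneg (1 - z ^ 2)]
  have h2 : (1 + z) ^ 2 ≤ 2 * (1 + z ^ 2) := by nlinarith [sq_nonneg (1 - z)]
  have h3 : (4 * z ^ 2) * (1 + z) ^ 2 ≤ (1 + z ^ 2) ^ 2 * (2 * (1 + z ^ 2)) := by
    apply mul_le_mul h1 h2 (by positivity) (by positivity)
  nlinarith

theorem th_eq {z : ℝ} (h : th z = td z) : z = 1 := by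
  unfold th td at h
  have h0 : 0 < 1 + z ^ 2 := by positivity
  have h1 : 4 * z ^ 2 ≤ (1 + z ^ 2) ^ 2 := by nlinarith [sq_nonneg (1 - z ^ 2)]
  have h2 : (1 + z) ^ 2 ≤ 2 * (1 + z ^ 2) := by nlinarith [sq_nonneg (1 - z)]
  have h4 : (4 * z ^ 2) * (1 + z) ^ 2 = (1 + z ^ 2) ^ 2 * (2 * (1 + z ^ 2)) := by
    linear_combination 2 * h
  have h5 : (1 + z ^ 2) ^ 2 * (2 * (1 + z ^ 2) - (1 + z) ^ 2) ≤ 0 := by
    nlinarith [mul_nonneg (sub_nonneg.2 h1) (sq_nonneg (1 + z))]
  have h6 : 2 * (1 + z ^ 2) - (1 + z) ^ 2 ≤ 0 := by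
    by_contra h7
    push Not at h7
    have := mul_pos (pow_pos h0 2) h7
    linarith
  have h8 : (1 - z) ^ 2 ≤ 0 := by nlinarith
  have h9 : (1 - z) ^ 2 = 0 := le_antisymm h8 (sq_nonneg _)
  rw [sq_eq_zero_iff] at h9
  linarith

theorem th_one : th 1 = td 1 := by norm_num [th, td]

theorem th_zero : th 0 = 0 := by norm_num [th]

theorem th_neg {z : ℝ} (hz : z ≤ 0) : 2 * th z ≤ td z := by
  unfold th td
  have h2 : (1 + z) ^ 2 ≤ 1 + z ^ 2 := by nlinarith
  have h1 : 4 * z ^ 2 ≤ (1 + z ^ 2) ^ 2 := by nlinarith [sq_nonneg (1 - z ^ 2)]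
  have h3 : (4 * z ^ 2) * (1 + z) ^ 2 ≤ (1 + z ^ 2) ^ 2 * (1 + z ^ 2) := by
    apply mul_le_mul h1 h2 (by positivity) (by positivity)
  nlinarith

theorem PR.th {f : Om → ℝ} (hf : PR f) : PR (fun x => MI.th (f x)) :=
  ((PR.const 2).mul (hf.pow 2)).mul (((PR.const 1).add hf).pow 2)

theorem PR.td {f : Om → ℝ} (hf : PR f) : PR (fun x => MI.td (f x)) :=
  ((PR.const 1).add (hf.pow 2)).pow 3

/-- for `s ≠ 0` and `t ≠ 0` of sign `s` there is `l` with `s * l ^ 2 * t = 1` -/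
theorem exists_lam {s : SignType} {t : ℝ} (ht0 : t ≠ 0) (hs : SignType.sign t = s) :
    ∃ l : ℝ, (s : ℝ) * (l ^ 2 * t) = 1 := by
  refine ⟨(Real.sqrt |t|)⁻¹, ?_⟩
  rw [inv_pow, Real.sq_sqrt (abs_nonneg _), ← hs]
  have h1 : ((SignType.sign t : SignType) : ℝ) * t = |t| := by
    rcases lt_or_gt_of_ne ht0 with h7 | h7
    · rw [sign_neg h7, abs_of_neg h7]; simp
    · rw [sign_pos h7, abs_of_pos h7]; simp
  have h2 : |t| ≠ 0 := abs_ne_zero.2 ht0
  calc ((SignType.sign t : SignType) : ℝ) * (|t|⁻¹ * t)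
      = |t|⁻¹ * (((SignType.sign t : SignType) : ℝ) * t) := by ring
    _ = 1 := by rw [h1]; exact inv_mul_cancel₀ h2

/-- if `s * (l ^ 2 * t) > 0` then `t` has the sign `s` -/
theorem sign_of_pos {s : SignType} {t l : ℝ} (h : 0 < (s : ℝ) * (l ^ 2 * t)) :
    SignType.sign t = s := by
  rcases s with _ | _ | _
  · simp at h
  · have h1 : l ^ 2 * t < 0 := by simpa using h
    apply sign_neg
    by_contra h2
    push Not at h2
    have := mul_nonneg (sq_nonneg l) h2
    linarith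
  · have h1 : 0 < l ^ 2 * t := by simpa using h
    apply sign_pos
    by_contra h2
    push Not at h2
    nlinarith [sq_nonneg l]

end Pool.Agent.K7.H97.MI
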