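import Pool.Agent.K7.H97.MI.Final

/-!
Project MI: the explicit form of the classification.
-/

set_option autoImplicit false
set_option linter.unusedVariables false

namespace Pool.Agent.K7.H97.MI.Data

open Pool.Agent.K7.H97.MI

/-- The discriminant of the characteristic polynomial. -/
def disc (T : M2) : ℝ := T.trace ^ 2 - 4 * T.det

/-- `T` is a scalar matrix. -/
def IsScalar (T : M2) : Prop := ∃ c : ℝ, T = c • (1 : M2)

/-- The parameters. -/
structure Parameters where
  Ap : Set ℝ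
  An : Set ℝ
  Jp : Prop
  Jn : Prop
  Cp : Prop
  Cn : Prop
  Ip : Prop
  In : Prop
  N : Prop

/-- The set of matrices with the given parameters. -/
def matrixSet (d : Parameters) : Set M2 :=
  {T | T = 0 ∨
    (0 < T.trace ∧ disc T ≠ 0 ∧ disc T / T.trace ^ 2 ∈ d.Ap) ∨
    (T.trace < 0 ∧ disc T ≠ 0 ∧ disc T / T.trace ^ 2 ∈ d.An) ∨
    (0 < T.trace ∧ disc T = 0 ∧ ¬ IsScalar T ∧ d.Jp) ∨
    (T.trace < 0 ∧ disc T = 0 ∧ ¬ IsScalar T ∧ d.Jn) ∨
    (0 < T.trace ∧ IsScalar T ∧ d.Cp) ∨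
    (T.trace < 0 ∧ IsScalar T ∧ d.Cn) ∨
    (T.trace = 0 ∧ 0 < disc T ∧ d.Ip) ∨
    (T.trace = 0 ∧ disc T < 0 ∧ d.In) ∨
    (T.trace = 0 ∧ disc T = 0 ∧ T ≠ 0 ∧ d.N)}

/-- The admissible parameters. -/
structure Good (d : Parameters) : Prop where
  zero_p : (0 : ℝ) ∉ d.Ap
  zero_n : (0 : ℝ) ∉ d.An
  fui_p : IsFUI d.Ap
  fui_n : IsFUI d.An
  dbl_p : d.Jp ∨ d.Cp → (0 : ℝ) ∈ closure d.Ap
  dbl_n : d.Jn ∨ d.Cn → (0 : ℝ) ∈ closure d.An
  inf_p : d.Ip → ¬ BddAbove (d.Ap ∪ d.An)
  inf_n : d.In → ¬ BddBelow (d.Ap ∪ d.An)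
  pos : ∃ r ∈ d.Ap ∪ d.An, 0 < r
  neg : ∃ r ∈ d.Ap ∪ d.An, r < 0
  conn : (closure (d.Ap ∪ d.An)).OrdConnected ∨ ((closure (d.Ap ∪ d.An))ᶜ).OrdConnected

theorem disc_eq (T : M2) : disc T = 4 * dd T := by simp [disc, dd]; ring

theorem trace_eq (T : M2) : T.trace = 2 * ht T := by rw [ht]; ring

theorem ratio_eq (T : M2) : disc T / T.trace ^ 2 = rr T := by
  rw [disc_eq, trace_eq, rr, mul_pow]
  by_cases h : ht T = 0
  · simp [h]
  · field_simp; ring

theorem scalar_iff (T : M2) : IsScalar T ↔ tl T = 0 := by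
  constructor
  · rintro ⟨c, rfl⟩
    rw [tl, ht_smul_one, sub_self]
  · intro h
    exact ⟨ht T, (eq_smul_one_iff T).2 h⟩

theorem mem_iff (d : Parameters) (T : M2) : T ∈ matrixSet d ↔ (T = 0 ∨
    (0 < ht T ∧ dd T ≠ 0 ∧ rr T ∈ d.Ap) ∨
    (ht T < 0 ∧ dd T ≠ 0 ∧ rr T ∈ d.An) ∨
    (0 < ht T ∧ dd T = 0 ∧ tl T ≠ 0 ∧ d.Jp) ∨
    (ht T < 0 ∧ dd T = 0 ∧ tl T ≠ 0 ∧ d.Jn) ∨
    (0 < ht T ∧ tl T = 0 ∧ d.Cp) ∨
    (ht T < 0 ∧ tl T = 0 ∧ d.Cn) ∨
    (ht T = 0 ∧ 0 < dd T ∧ d.Ip) ∨
    (ht T = 0 ∧ dd T < 0 ∧ d.In) ∨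
    (ht T = 0 ∧ dd T = 0 ∧ T ≠ 0 ∧ d.N)) := by
  have h1 : (0 < T.trace) ↔ 0 < ht T := by rw [trace_eq]; constructor <;> intro h <;> linarith
  have h2 : (T.trace < 0) ↔ ht T < 0 := by rw [trace_eq]; constructor <;> intro h <;> linarith
  have h3 : (T.trace = 0) ↔ ht T = 0 := by rw [trace_eq]; constructor <;> intro h <;> linarith
  have h4 : (0 < disc T) ↔ 0 < dd T := by rw [disc_eq]; constructor <;> intro h <;> linarith
  have h5 : (disc T < 0) ↔ dd T < 0 := by rw [disc_eq]; constructor <;> intro h <;> linarith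
  have h6 : (disc T = 0) ↔ dd T = 0 := by rw [disc_eq]; constructor <;> intro h <;> linarith
  have h7 : (disc T ≠ 0) ↔ dd T ≠ 0 := not_congr h6
  simp only [matrixSet, Set.mem_ofPred_eq, h1, h2, h3, h4, h5, h6, h7, ratio_eq, scalar_iff, ne_eq]

/-- the part of the ratios -/
theorem rat_p (d : Parameters) (hd : Good d) : Rat (matrixSet d) 1 = d.Ap := by
  ext r
  constructor
  · rintro ⟨hr, T, hT, h1, h2, h3⟩
    have h4 : 0 < ht T := sign_eq_one_iff.1 h1
    have h5 : dd T ≠ 0 := by rw [h3]; exact mul_ne_zero hr (pow_ne_zero 2 h2)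
    have h6 : rr T = r := by rw [rr, h3]; field_simp
    have h7 : tl T ≠ 0 := fun h => h5 (tl_eq_zero_of_dd h)
    rw [mem_iff] at hT
    rcases hT with h | h | h | h | h | h | h | h | h | h
    · exact absurd h (ne_zero_of_ht h2)
    · rw [← h6]; exact h.2.2
    · exact absurd h.1 (by linarith)
    · exact absurd h.2.1 h5
    · exact absurd h.2.1 h5
    · exact absurd h.2.1 h7
    · exact absurd h.2.1 h7
    · exact absurd h.1 h2
    · exact absurd h.1 h2
    · exact absurd h.1 h2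
  · intro hr
    have hr0 : r ≠ 0 := fun h => hd.zero_p (h ▸ hr)
    have e1 : ht (!![1, r; 1, 1] : M2) = 1 := by simp [ht, Matrix.trace_fin_two]
    have e2 : dd (!![1, r; 1, 1] : M2) = r := by
      simp [dd, Matrix.trace_fin_two, Matrix.det_fin_two]
    refine ⟨hr0, !![1, r; 1, 1], ?_, ?_, ?_, ?_⟩
    · rw [mem_iff]
      right; left
      rw [rr, e1, e2]
      exact ⟨one_pos, hr0, by simpa using hr⟩
    · rw [e1]; simp
    · rw [e1]; exact one_ne_zero
    · rw [e1, e2]; ring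

theorem rat_n (d : Parameters) (hd : Good d) : Rat (matrixSet d) (-1) = d.An := by
  ext r
  constructor
  · rintro ⟨hr, T, hT, h1, h2, h3⟩
    have h4 : ht T < 0 := sign_eq_neg_one_iff.1 h1
    have h5 : dd T ≠ 0 := by rw [h3]; exact mul_ne_zero hr (pow_ne_zero 2 h2)
    have h6 : rr T = r := by rw [rr, h3]; field_simp
    have h7 : tl T ≠ 0 := fun h => h5 (tl_eq_zero_of_dd h)
    rw [mem_iff] at hT
    rcases hT with h | h | h | h | h | h | h | h | h | h
    · exact absurd h (ne_zero_of_ht h2)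
    · exact absurd h.1 (by linarith)
    · rw [← h6]; exact h.2.2
    · exact absurd h.2.1 h5
    · exact absurd h.2.1 h5
    · exact absurd h.2.1 h7
    · exact absurd h.2.1 h7
    · exact absurd h.1 h2
    · exact absurd h.1 h2
    · exact absurd h.1 h2
  · intro hr
    have hr0 : r ≠ 0 := fun h => hd.zero_n (h ▸ hr)
    have e1 : ht (!![-1, r; 1, -1] : M2) = -1 := by simp [ht, Matrix.trace_fin_two]
    have e2 : dd (!![-1, r; 1, -1] : M2) = r := by
      simp [dd, Matrix.trace_fin_two, Matrix.det_fin_two]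
    refine ⟨hr0, !![-1, r; 1, -1], ?_, ?_, ?_, ?_⟩
    · rw [mem_iff]
      right; right; left
      rw [rr, e1, e2]
      exact ⟨by norm_num, hr0, by simpa using hr⟩
    · rw [e1]; simp
    · rw [e1]; norm_num
    · rw [e1, e2]; ring

theorem invariant (hKey : StKey) (d : Parameters) {T T' : M2} (h : key T = key T') :
    T ∈ matrixSet d → T' ∈ matrixSet d := by
  have aux : ∀ T : M2, T ∈ matrixSet d ↔ (key T = Key.zero ∨
      (∃ r, key T = Key.reg r 1 ∧ r ≠ 0 ∧ r ∈ d.Ap) ∨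
      (∃ r, key T = Key.reg r (-1) ∧ r ≠ 0 ∧ r ∈ d.An) ∨
      (key T = Key.reg 0 1 ∧ d.Jp) ∨ (key T = Key.reg 0 (-1) ∧ d.Jn) ∨
      (key T = Key.sc 1 ∧ d.Cp) ∨ (key T = Key.sc (-1) ∧ d.Cn) ∨
      (key T = Key.inf 1 ∧ d.Ip) ∨ (key T = Key.inf (-1) ∧ d.In) ∨ (key T = Key.nil ∧ d.N)) := by
    intro T
    rw [mem_iff]
    have hrr : ht T ≠ 0 → (rr T = 0 ↔ dd T = 0) := by
      intro h
      rw [rr, div_eq_zero_iff, or_iff_left (pow_ne_zero 2 h)]
    constructor
    · rintro (h | h | h | h | h | h | h | h | h | h)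
      · left; rw [h, key_zero]
      · right; left
        exact ⟨rr T, key_eq_reg.2 ⟨h.1.ne', fun h' => h.2.1 (tl_eq_zero_of_dd h'), rfl,
          sign_pos h.1⟩, fun h' => h.2.1 ((hrr h.1.ne').1 h'), h.2.2⟩
      · right; right; left
        exact ⟨rr T, key_eq_reg.2 ⟨h.1.ne, fun h' => h.2.1 (tl_eq_zero_of_dd h'), rfl,
          sign_neg h.1⟩, fun h' => h.2.1 ((hrr h.1.ne).1 h'), h.2.2⟩
      · right; right; right; left
        exact ⟨key_eq_reg.2 ⟨h.1.ne', h.2.2.1, (hrr h.1.ne').2 h.2.1, sign_pos h.1⟩, h.2.2.2⟩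
      · right; right; right; right; left
        exact ⟨key_eq_reg.2 ⟨h.1.ne, h.2.2.1, (hrr h.1.ne).2 h.2.1, sign_neg h.1⟩, h.2.2.2⟩
      · right; right; right; right; right; left
        exact ⟨key_eq_sc.2 ⟨h.1.ne', h.2.1, sign_pos h.1⟩, h.2.2⟩
      · right; right; right; right; right; right; left
        exact ⟨key_eq_sc.2 ⟨h.1.ne, h.2.1, sign_neg h.1⟩, h.2.2⟩
      · right; right; right; right; right; right; right; left
        exact ⟨key_eq_inf.2 ⟨h.1, h.2.1.ne', sign_pos h.2.1⟩, h.2.2⟩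
      · right; right; right; right; right; right; right; right; left
        exact ⟨key_eq_inf.2 ⟨h.1, h.2.1.ne, sign_neg h.2.1⟩, h.2.2⟩
      · right; right; right; right; right; right; right; right; right
        refine ⟨key_eq_nil.2 ⟨h.1, h.2.1, fun h' => h.2.2.1 ?_⟩, h.2.2.2⟩
        rw [← ht_add_tl T, h.1, h']; simp
    · rintro (h | ⟨r, h, hr0, hr⟩ | ⟨r, h, hr0, hr⟩ | ⟨h, h'⟩ | ⟨h, h'⟩ | ⟨h, h'⟩ | ⟨h, h'⟩ |
        ⟨h, h'⟩ | ⟨h, h'⟩ | ⟨h, h'⟩)
      · left; exact key_eq_zero.1 h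
      · right; left
        rw [key_eq_reg] at h
        have hs := sign_eq_one_iff.1 h.2.2.2
        exact ⟨hs, fun h' => hr0 (h.2.2.1 ▸ (hrr h.1).2 h'), by rw [h.2.2.1]; exact hr⟩
      · right; right; left
        rw [key_eq_reg] at h
        have hs := sign_eq_neg_one_iff.1 h.2.2.2
        exact ⟨hs, fun h' => hr0 (h.2.2.1 ▸ (hrr h.1).2 h'), by rw [h.2.2.1]; exact hr⟩
      · right; right; right; left
        rw [key_eq_reg] at h
        exact ⟨sign_eq_one_iff.1 h.2.2.2, (hrr h.1).1 h.2.2.1, h.2.1, h'⟩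
      · right; right; right; right; left
        rw [key_eq_reg] at h
        exact ⟨sign_eq_neg_one_iff.1 h.2.2.2, (hrr h.1).1 h.2.2.1, h.2.1, h'⟩
      · right; right; right; right; right; left
        rw [key_eq_sc] at h
        exact ⟨sign_eq_one_iff.1 h.2.2, h.2.1, h'⟩
      · right; right; right; right; right; right; left
        rw [key_eq_sc] at h
        exact ⟨sign_eq_neg_one_iff.1 h.2.2, h.2.1, h'⟩
      · right; right; right; right; right; right; right; left
        rw [key_eq_inf] at h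
        exact ⟨h.1, sign_eq_one_iff.1 h.2.2, h'⟩
      · right; right; right; right; right; right; right; right; left
        rw [key_eq_inf] at h
        exact ⟨h.1, sign_eq_neg_one_iff.1 h.2.2, h'⟩
      · right; right; right; right; right; right; right; right; right
        rw [key_eq_nil] at h
        exact ⟨h.1, h.2.1, ne_zero_of_tl h.2.2, h'⟩
  rw [aux, aux, h]
  exact id

/-- good parameters give admissible sets -/
theorem admissible (hKey : StKey) (d : Parameters) (hd : Good d) : Admissible (matrixSet d) := by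
  have hU : RatU (matrixSet d) = d.Ap ∪ d.An := by rw [RatU, rat_p d hd, rat_n d hd]
  refine ⟨Or.inl rfl, ?_, ?_, ?_, ?_, ?_, ?_, ?_, ?_, ?_⟩
  · intro T hT c hc
    exact invariant hKey d (key_smul hc T).symm hT
  · intro T hT g
    refine invariant hKey d ?_ hT
    have := hKey.1 T 1 g one_pos
    rw [one_smul] at this
    exact this.symm
  · intro s hs
    rcases sign_cases hs with rfl | rfl
    · rw [rat_p d hd]; exact hd.fui_p
    · rw [rat_n d hd]; exact hd.fui_n
  · intro T hT h1 h2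
    rw [mem_iff] at hT
    rcases lt_or_gt_of_ne h1 with h3 | h3
    · rw [sign_neg h3, rat_n d hd]
      apply hd.dbl_n
      rcases hT with h | h | h | h | h | h | h | h | h | h
      · exact absurd h (ne_zero_of_ht h1)
      · exact absurd h2 h.2.1
      · exact absurd h2 h.2.1
      · exact absurd h.1 (by linarith)
      · exact Or.inl h.2.2.2
      · exact absurd h.1 (by linarith)
      · exact Or.inr h.2.2
      · exact absurd h.1 h1
      · exact absurd h.1 h1
      · exact absurd h.1 h1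
    · rw [sign_pos h3, rat_p d hd]
      apply hd.dbl_p
      rcases hT with h | h | h | h | h | h | h | h | h | h
      · exact absurd h (ne_zero_of_ht h1)
      · exact absurd h2 h.2.1
      · exact absurd h2 h.2.1
      · exact Or.inl h.2.2.2
      · exact absurd h.1 (by linarith)
      · exact Or.inr h.2.2
      · exact absurd h.1 (by linarith)
      · exact absurd h.1 h1
      · exact absurd h.1 h1
      · exact absurd h.1 h1
  · intro T hT h1 h2
    rw [hU]
    apply hd.inf_p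
    rw [mem_iff] at hT
    rcases hT with h | h | h | h | h | h | h | h | h | h
    · rw [h] at h2; simp [dd] at h2
    · exact absurd h.1 (by linarith)
    · exact absurd h.1 (by linarith)
    · exact absurd h.1 (by linarith)
    · exact absurd h.1 (by linarith)
    · exact absurd h.1 (by linarith)
    · exact absurd h.1 (by linarith)
    · exact h.2.2
    · exact absurd h.2.1 (by linarith)
    · exact absurd h.2.1 (by linarith)
  · intro T hT h1 h2
    rw [hU]
    apply hd.inf_n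
    rw [mem_iff] at hT
    rcases hT with h | h | h | h | h | h | h | h | h | h
    · rw [h] at h2; simp [dd] at h2
    · exact absurd h.1 (by linarith)
    · exact absurd h.1 (by linarith)
    · exact absurd h.1 (by linarith)
    · exact absurd h.1 (by linarith)
    · exact absurd h.1 (by linarith)
    · exact absurd h.1 (by linarith)
    · exact absurd h.2.1 (by linarith)
    · exact h.2.2
    · exact absurd h.2.1 (by linarith)
  · rw [hU]; exact hd.pos
  · rw [hU]; exact hd.neg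
  · rw [hU]; exact hd.conn

/-- the parameters of an admissible set -/
def params (S : Set M2) : Parameters where
  Ap := Rat S 1
  An := Rat S (-1)
  Jp := ∃ T ∈ S, 0 < ht T ∧ dd T = 0 ∧ tl T ≠ 0
  Jn := ∃ T ∈ S, ht T < 0 ∧ dd T = 0 ∧ tl T ≠ 0
  Cp := ∃ T ∈ S, 0 < ht T ∧ tl T = 0
  Cn := ∃ T ∈ S, ht T < 0 ∧ tl T = 0
  Ip := ∃ T ∈ S, ht T = 0 ∧ 0 < dd T
  In := ∃ T ∈ S, ht T = 0 ∧ dd T < 0
  N := ∃ T ∈ S, ht T = 0 ∧ dd T = 0 ∧ T ≠ 0

theorem params_good {S : Set M2} (hS : Admissible S) : Good (params S) where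
  zero_p := fun h => h.1 rfl
  zero_n := fun h => h.1 rfl
  fui_p := hS.fui 1 (by decide)
  fui_n := hS.fui (-1) (by decide)
  dbl_p := by
    rintro (⟨T, hT, h1, h2, _⟩ | ⟨T, hT, h1, h2⟩)
    · have := hS.dbl T hT h1.ne' h2
      rwa [sign_pos h1] at this
    · have := hS.dbl T hT h1.ne' (tl_eq_zero_of_dd h2)
      rwa [sign_pos h1] at this
  dbl_n := by
    rintro (⟨T, hT, h1, h2, _⟩ | ⟨T, hT, h1, h2⟩)
    · have := hS.dbl T hT h1.ne h2
      rwa [sign_neg h1] at this
    · have := hS.dbl T hT h1.ne (tl_eq_zero_of_dd h2)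
      rwa [sign_neg h1] at this
  inf_p := by
    rintro ⟨T, hT, h1, h2⟩
    exact hS.infp T hT h1 h2
  inf_n := by
    rintro ⟨T, hT, h1, h2⟩
    exact hS.infn T hT h1 h2
  pos := hS.pos
  neg := hS.neg
  conn := hS.conn

theorem params_set (hKey : StKey) {S : Set M2} (hS : Admissible S) : S = matrixSet (params S) := by
  -- membership depends only on the key
  have hmem : ∀ T T' : M2, key T = key T' → T ∈ S → T' ∈ S := by
    intro T T' h hT
    exact mem_of_key hKey hS ⟨T, hT, h⟩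
  have hrr : ∀ T : M2, ht T ≠ 0 → (rr T = 0 ↔ dd T = 0) := by
    intro T h
    rw [rr, div_eq_zero_iff, or_iff_left (pow_ne_zero 2 h)]
  ext T
  rw [mem_iff]
  constructor
  · intro hT
    by_cases h0 : T = 0
    · exact Or.inl h0
    right
    by_cases h1 : ht T = 0
    · rcases lt_trichotomy (dd T) 0 with h2 | h2 | h2
      · right; right; right; right; right; right; right; left
        exact ⟨h1, h2, T, hT, h1, h2⟩
      · right; right; right; right; right; right; right; right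
        exact ⟨h1, h2, h0, T, hT, h1, h2, h0⟩
      · right; right; right; right; right; right; left
        exact ⟨h1, h2, T, hT, h1, h2⟩
    · have hq : ht T ^ 2 ≠ 0 := pow_ne_zero 2 h1
      rcases lt_or_gt_of_ne h1 with h3 | h3
      · by_cases h2 : dd T = 0
        · by_cases h4 : tl T = 0
          · right; right; right; right; right; left
            exact ⟨h3, h4, T, hT, h3, h4⟩
          · right; right; right; left
            exact ⟨h3, h2, h4, T, hT, h3, h2, h4⟩
        · right; left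
          refine ⟨h3, h2, fun h => h2 ((hrr T h1).1 h), T, hT, sign_neg h3, h1, ?_⟩
          rw [rr]; field_simp
      · by_cases h2 : dd T = 0
        · by_cases h4 : tl T = 0
          · right; right; right; right; left
            exact ⟨h3, h4, T, hT, h3, h4⟩
          · right; right; left
            exact ⟨h3, h2, h4, T, hT, h3, h2, h4⟩
        · left
          refine ⟨h3, h2, fun h => h2 ((hrr T h1).1 h), T, hT, sign_pos h3, h1, ?_⟩
          rw [rr]; field_simp
  · rintro (h | h | h | h | h | h | h | h | h | h)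
    · rw [h]; exact hS.zero
    · obtain ⟨h1, h2, h3⟩ := h
      obtain ⟨T', hT', he⟩ := (rat_iff S hKey hS (by decide) (fun h => h2 ((hrr T h1.ne').1 h))).1 h3
      refine hmem T' T ?_ hT'
      rw [he, key_reg (fun h => h2 (tl_eq_zero_of_dd h)) h1.ne', sign_pos h1]
    · obtain ⟨h1, h2, h3⟩ := h
      obtain ⟨T', hT', he⟩ := (rat_iff S hKey hS (by decide) (fun h => h2 ((hrr T h1.ne).1 h))).1 h3
      refine hmem T' T ?_ hT'
      rw [he, key_reg (fun h => h2 (tl_eq_zero_of_dd h)) h1.ne, sign_neg h1]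
    · obtain ⟨h1, h2, h4, T', hT', h5, h6, h7⟩ := h
      refine hmem T' T ?_ hT'
      rw [key_reg h7 h5.ne', key_reg h4 h1.ne', sign_pos h1, sign_pos h5,
        (hrr T h1.ne').2 h2, (hrr T' h5.ne').2 h6]
    · obtain ⟨h1, h2, h4, T', hT', h5, h6, h7⟩ := h
      refine hmem T' T ?_ hT'
      rw [key_reg h7 h5.ne, key_reg h4 h1.ne, sign_neg h1, sign_neg h5,
        (hrr T h1.ne).2 h2, (hrr T' h5.ne).2 h6]
    · obtain ⟨h1, h2, T', hT', h5, h6⟩ := h
      refine hmem T' T ?_ hT'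
      rw [key_sc (ne_zero_of_ht h5.ne') h6, key_sc (ne_zero_of_ht h1.ne') h2, sign_pos h1,
        sign_pos h5]
    · obtain ⟨h1, h2, T', hT', h5, h6⟩ := h
      refine hmem T' T ?_ hT'
      rw [key_sc (ne_zero_of_ht h5.ne) h6, key_sc (ne_zero_of_ht h1.ne) h2, sign_neg h1,
        sign_neg h5]
    · obtain ⟨h1, h2, T', hT', h5, h6⟩ := h
      refine hmem T' T ?_ hT'
      rw [key_inf h5 h6.ne', key_inf h1 h2.ne', sign_pos h2, sign_pos h6]
    · obtain ⟨h1, h2, T', hT', h5, h6⟩ := h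
      refine hmem T' T ?_ hT'
      rw [key_inf h5 h6.ne, key_inf h1 h2.ne, sign_neg h2, sign_neg h6]
    · obtain ⟨h1, h2, h3, T', hT', h5, h6, h7⟩ := h
      refine hmem T' T ?_ hT'
      have e : ∀ U : M2, ht U = 0 → U ≠ 0 → tl U ≠ 0 := by
        intro U h hU h'
        apply hU
        rw [← ht_add_tl U, h, h']; simp
      rw [key_nil (e T' h5 h7) h5 h6, key_nil (e T h1 h3) h1 h2]

/-- Membership of suitable matrices recovers the parameters. -/
theorem inj (d d' : Parameters) (hd : Good d) (hd' : Good d') (h : matrixSet d = matrixSet d') :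
    d.Ap = d'.Ap ∧ d.An = d'.An ∧ (d.Jp ↔ d'.Jp) ∧ (d.Jn ↔ d'.Jn) ∧ (d.Cp ↔ d'.Cp) ∧
      (d.Cn ↔ d'.Cn) ∧ (d.Ip ↔ d'.Ip) ∧ (d.In ↔ d'.In) ∧ (d.N ↔ d'.N) := by
  have aux : ∀ e : Parameters,
      ((!![1, 1; 0, 1] : M2) ∈ matrixSet e ↔ e.Jp) ∧
      ((!![-1, 1; 0, -1] : M2) ∈ matrixSet e ↔ e.Jn) ∧
      ((!![1, 0; 0, 1] : M2) ∈ matrixSet e ↔ e.Cp) ∧
      ((!![-1, 0; 0, -1] : M2) ∈ matrixSet e ↔ e.Cn) ∧
      ((!![1, 0; 0, -1] : M2) ∈ matrixSet e ↔ e.Ip) ∧
      ((!![0, 1; -1, 0] : M2) ∈ matrixSet e ↔ e.In) ∧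
      ((!![0, 1; 0, 0] : M2) ∈ matrixSet e ↔ e.N) := by
    intro e
    have nz : ∀ a b c d : ℝ, (a ≠ 0 ∨ b ≠ 0 ∨ c ≠ 0 ∨ d ≠ 0) → (!![a, b; c, d] : M2) ≠ 0 := by
      intro a b c d h h'
      have h1 := congrFun (congrFun h' 0) 0
      have h2 := congrFun (congrFun h' 0) 1
      have h3 := congrFun (congrFun h' 1) 0
      have h4 := congrFun (congrFun h' 1) 1
      simp at h1 h2 h3 h4
      rcases h with h | h | h | h
      · exact h h1
      · exact h h2
      · exact h h3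
      · exact h h4
    have ht' : ∀ a b c d : ℝ, ht (!![a, b; c, d] : M2) = (a + d) / 2 := by
      intro a b c d; simp [ht, Matrix.trace_fin_two]
    have dd' : ∀ a b c d : ℝ, dd (!![a, b; c, d] : M2) = ((a - d) / 2) ^ 2 + b * c := by
      intro a b c d; simp [dd, Matrix.trace_fin_two, Matrix.det_fin_two]; ring
    have tl' : ∀ a b c d : ℝ, tl (!![a, b; c, d] : M2) = 0 ↔ a = d ∧ b = 0 ∧ c = 0 := by
      intro a b c d
      rw [tl, ht']
      constructor
      · intro h'
        have h1 := congrFun (congrFun h' 0) 0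
        have h2 := congrFun (congrFun h' 0) 1
        have h3 := congrFun (congrFun h' 1) 0
        simp at h1 h2 h3
        exact ⟨by linarith, h2, h3⟩
      · rintro ⟨rfl, rfl, rfl⟩
        ext i j; fin_cases i <;> fin_cases j <;> simp
    refine ⟨?_, ?_, ?_, ?_, ?_, ?_, ?_⟩
    · rw [mem_iff, ht', dd', ne_eq (tl _), tl', or_iff_right (nz _ _ _ _ (by norm_num))]
      norm_num
    · rw [mem_iff, ht', dd', ne_eq (tl _), tl', or_iff_right (nz _ _ _ _ (by norm_num))]
      norm_num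
    · rw [mem_iff, ht', dd', ne_eq (tl _), tl', or_iff_right (nz _ _ _ _ (by norm_num))]
      norm_num
    · rw [mem_iff, ht', dd', ne_eq (tl _), tl', or_iff_right (nz _ _ _ _ (by norm_num))]
      norm_num
    · rw [mem_iff, ht', dd', ne_eq (tl _), tl', or_iff_right (nz _ _ _ _ (by norm_num))]
      norm_num
    · rw [mem_iff, ht', dd', ne_eq (tl _), tl', or_iff_right (nz _ _ _ _ (by norm_num))]
      norm_num
    · rw [mem_iff, ht', dd', ne_eq (tl _), tl', or_iff_right (nz _ _ _ _ (by norm_num))]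
      have := nz 0 1 0 0 (by norm_num)
      norm_num [this]
  obtain ⟨a1, a2, a3, a4, a5, a6, a7⟩ := aux d
  obtain ⟨b1, b2, b3, b4, b5, b6, b7⟩ := aux d'
  refine ⟨?_, ?_, ?_, ?_, ?_, ?_, ?_, ?_, ?_⟩
  · rw [← rat_p d hd, ← rat_p d' hd', h]
  · rw [← rat_n d hd, ← rat_n d' hd', h]
  · rw [← a1, ← b1, h]
  · rw [← a2, ← b2, h]
  · rw [← a3, ← b3, h]
  · rw [← a4, ← b4, h]
  · rw [← a5, ← b5, h]
  · rw [← a6, ← b6, h]
  · rw [← a7, ← b7, h]

theorem final (hKey : StKey) (hSuf : StSuf) (hNec : StNec) :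
    (∀ S : Set M2, (∃ (m : ℕ) (p : FreeAlgebra ℝ (Fin m)), IsSemihomogeneous p ∧ image p = S) ↔
      (S = {0} ∨ S = Set.range (fun c : ℝ => c • (1 : M2)) ∨
        S = (fun c : ℝ => c • (1 : M2)) '' Set.Ici 0 ∨
        S = (fun c : ℝ => c • (1 : M2)) '' Set.Iic 0 ∨
        S = {T | T.trace = 0} ∨ S = {T | T.trace = 0 ∧ (T = 0 ∨ T.det ≠ 0)} ∨
        ∃ d : Parameters, Good d ∧ S = matrixSet d)) := by
  intro S
  rw [classification hSuf hNec S]
  have : Admissible S ↔ ∃ d : Parameters, Good d ∧ S = matrixSet d := by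
    constructor
    · intro h; exact ⟨params S, params_good h, params_set hKey h⟩
    · rintro ⟨d, hd, rfl⟩; exact admissible hKey d hd
  rw [this]

end Pool.Agent.K7.H97.MI.Data
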