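import Pool.Agent.K7.H97.MI.AsmB
import Pool.Agent.W916.MI.D

/-!
Project MI: the degenerate cases and the classification.
-/

set_option autoImplicit false
set_option linter.unusedVariables false

namespace Pool.Agent.K7.H97.MI

open Pool.Agent.W916.MI (comm2 lift_comm2 comm2_trace comm2_homo homo_semi real_sl real_third
  real_zero trichotomy exists_pow_eq)

theorem scaleR {m : ℕ} {p : FreeAlgebra ℝ (Fin m)} (h : IsSemihomogeneous p) :
    (0 : M2) ∈ image p ∧ ∀ T ∈ image p, ∀ c : ℝ, 0 < c → c • T ∈ image p := by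
  obtain ⟨w, d, hd, hsc⟩ := Pool.Agent.W916.MI.scale (p := p) h
  constructor
  · refine ⟨fun i => (0 : ℝ) ^ w i • (0 : M2), ?_⟩
    have := hsc 0 (fun _ => 0)
    simp only
    rw [this, zero_pow hd.ne', zero_smul]
  · rintro _ ⟨a, rfl⟩ c hc
    obtain ⟨b, hb, hbc⟩ := exists_pow_eq d hd.ne' c hc
    refine ⟨fun i => b ^ w i • a i, ?_⟩
    simp only
    rw [hsc, hbc]

theorem lift_sq (a : Fin 2 → M2) :
    FreeAlgebra.lift ℝ a (comm2 ^ 2) = (-(FreeAlgebra.lift ℝ a comm2).det) • (1 : M2) := by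
  rw [map_pow, pow_two]
  exact sq_of_trace_zero (comm2_trace a)

theorem exists_comm (c : ℝ) : ∃ a : Fin 2 → M2,
    FreeAlgebra.lift ℝ a (comm2 ^ 2) = c • (1 : M2) := by
  have h1 : (!![0, c; 1, 0] : M2) ∈ Set.range (fun a : Fin 2 → M2 => FreeAlgebra.lift ℝ a comm2) := by
    rw [real_sl]
    simp [Matrix.trace_fin_two]
  obtain ⟨a, ha⟩ := h1
  refine ⟨a, ?_⟩
  simp only at ha
  rw [lift_sq, ha]
  simp [Matrix.det_fin_two]

theorem semi_sq : IsSemihomogeneous (comm2 ^ 2) :=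
  homo_semi (comm2_homo.pow 2) (by norm_num)

theorem semi_four : IsSemihomogeneous (comm2 ^ 2 * comm2 ^ 2) :=
  homo_semi ((comm2_homo.pow 2).mul (comm2_homo.pow 2)) (by norm_num)

theorem semi_neg_four : IsSemihomogeneous (-(comm2 ^ 2 * comm2 ^ 2)) :=
  homo_semi ((comm2_homo.pow 2).mul (comm2_homo.pow 2)).neg (by norm_num)

theorem image_sq : image (comm2 ^ 2) = Set.range (fun c : ℝ => c • (1 : M2)) := by
  apply Set.eq_of_subset_of_subset
  · rintro _ ⟨a, rfl⟩
    exact ⟨_, (lift_sq a).symm⟩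
  · rintro _ ⟨c, rfl⟩
    obtain ⟨a, ha⟩ := exists_comm c
    exact ⟨a, ha⟩

theorem lift_four (a : Fin 2 → M2) :
    FreeAlgebra.lift ℝ a (comm2 ^ 2 * comm2 ^ 2) =
      ((FreeAlgebra.lift ℝ a comm2).det ^ 2) • (1 : M2) := by
  rw [map_mul, lift_sq, smul_mul_smul_comm, one_mul]
  congr 1
  ring

theorem image_four : image (comm2 ^ 2 * comm2 ^ 2) = (fun c : ℝ => c • (1 : M2)) '' Set.Ici 0 := by
  apply Set.eq_of_subset_of_subset
  · rintro _ ⟨a, rfl⟩
    exact ⟨_, Set.mem_Ici.2 (sq_nonneg _), (lift_four a).symm⟩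
  · rintro _ ⟨c, hc, rfl⟩
    obtain ⟨a, ha⟩ := exists_comm (Real.sqrt c)
    refine ⟨a, ?_⟩
    simp only
    rw [map_mul, ha, smul_mul_smul_comm, one_mul, Real.mul_self_sqrt hc]

theorem image_neg_four :
    image (-(comm2 ^ 2 * comm2 ^ 2)) = (fun c : ℝ => c • (1 : M2)) '' Set.Iic 0 := by
  apply Set.eq_of_subset_of_subset
  · rintro _ ⟨a, rfl⟩
    refine ⟨-(FreeAlgebra.lift ℝ a comm2).det ^ 2, ?_, ?_⟩
    · rw [Set.mem_Iic]
      have := sq_nonneg (FreeAlgebra.lift ℝ a comm2).det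
      linarith
    · simp only
      rw [map_neg, lift_four, neg_smul]
  · rintro _ ⟨c, hc, rfl⟩
    obtain ⟨a, ha⟩ := exists_comm (Real.sqrt (-c))
    refine ⟨a, ?_⟩
    have hc' : 0 ≤ -c := by have : c ≤ 0 := hc; linarith
    simp only
    rw [map_neg, map_mul, ha, smul_mul_smul_comm, one_mul, Real.mul_self_sqrt hc', neg_smul,
      neg_neg]

/-- images consisting of scalars -/
theorem scalar_case {m : ℕ} {p : FreeAlgebra ℝ (Fin m)} (h : IsSemihomogeneous p)
    (hs : ∀ T ∈ image p, T = ht T • (1 : M2)) :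
    image p = {0} ∨ image p = Set.range (fun c : ℝ => c • (1 : M2)) ∨
      image p = (fun c : ℝ => c • (1 : M2)) '' Set.Ici 0 ∨
      image p = (fun c : ℝ => c • (1 : M2)) '' Set.Iic 0 := by
  obtain ⟨h0, hsc⟩ := scaleR h
  have hsub : ∀ T ∈ image p, ∃ c : ℝ, T = c • (1 : M2) := fun T hT => ⟨_, hs T hT⟩
  have hpos : (∃ c : ℝ, 0 < c ∧ c • (1 : M2) ∈ image p) → ∀ c : ℝ, 0 < c → c • (1 : M2) ∈ image p := by
    rintro ⟨b, hb, hbm⟩ c hc
    have := hsc _ hbm (c / b) (div_pos hc hb)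
    rw [smul_smul, div_mul_cancel₀ _ hb.ne'] at this
    exact this
  have hneg : (∃ c : ℝ, c < 0 ∧ c • (1 : M2) ∈ image p) → ∀ c : ℝ, c < 0 → c • (1 : M2) ∈ image p := by
    rintro ⟨b, hb, hbm⟩ c hc
    have := hsc _ hbm (c / b) (div_pos_of_neg_of_neg hc hb)
    rw [smul_smul, div_mul_cancel₀ _ hb.ne] at this
    exact this
  have hz : (0 : ℝ) • (1 : M2) ∈ image p := by rw [zero_smul]; exact h0
  by_cases hp : ∃ c : ℝ, 0 < c ∧ c • (1 : M2) ∈ image p
  · by_cases hn : ∃ c : ℝ, c < 0 ∧ c • (1 : M2) ∈ image p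
    · right; left
      apply Set.eq_of_subset_of_subset
      · intro T hT
        obtain ⟨c, rfl⟩ := hsub T hT
        exact ⟨c, rfl⟩
      · rintro _ ⟨c, rfl⟩
        rcases lt_trichotomy c 0 with hc | rfl | hc
        · exact hneg hn c hc
        · exact hz
        · exact hpos hp c hc
    · right; right; left
      apply Set.eq_of_subset_of_subset
      · intro T hT
        obtain ⟨c, rfl⟩ := hsub T hT
        refine ⟨c, ?_, rfl⟩
        by_contra hc
        exact hn ⟨c, not_le.1 hc, hT⟩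
      · rintro _ ⟨c, hc, rfl⟩
        rcases (show (0 : ℝ) ≤ c from hc).eq_or_lt with rfl | hc
        · exact hz
        · exact hpos hp c hc
  · by_cases hn : ∃ c : ℝ, c < 0 ∧ c • (1 : M2) ∈ image p
    · right; right; right
      apply Set.eq_of_subset_of_subset
      · intro T hT
        obtain ⟨c, rfl⟩ := hsub T hT
        refine ⟨c, ?_, rfl⟩
        by_contra hc
        exact hp ⟨c, not_le.1 hc, hT⟩
      · rintro _ ⟨c, hc, rfl⟩
        rcases (show c ≤ (0 : ℝ) from hc).eq_or_lt with rfl | hc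
        · exact hz
        · exact hneg hn c hc
    · left
      apply Set.eq_of_subset_of_subset
      · intro T hT
        obtain ⟨c, rfl⟩ := hsub T hT
        rcases lt_trichotomy c 0 with hc | rfl | hc
        · exact absurd ⟨c, hc, hT⟩ hn
        · simp
        · exact absurd ⟨c, hc, hT⟩ hp
      · rintro _ rfl; exact h0

theorem classification (hSuf : StSuf) (hNec : StNec) (S : Set M2) :
    (∃ (m : ℕ) (p : FreeAlgebra ℝ (Fin m)), IsSemihomogeneous p ∧ image p = S) ↔
      (S = {0} ∨ S = Set.range (fun c : ℝ => c • (1 : M2)) ∨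
        S = (fun c : ℝ => c • (1 : M2)) '' Set.Ici 0 ∨
        S = (fun c : ℝ => c • (1 : M2)) '' Set.Iic 0 ∨
        S = {T | T.trace = 0} ∨ S = {T | T.trace = 0 ∧ (T = 0 ∨ T.det ≠ 0)} ∨
        Admissible S) := by
  constructor
  · rintro ⟨m, p, hp, rfl⟩
    by_cases h1 : ∀ T ∈ image p, T = ht T • (1 : M2)
    · rcases scalar_case hp h1 with h | h | h | h
      · exact Or.inl h
      · exact Or.inr (Or.inl h)
      · exact Or.inr (Or.inr (Or.inl h))
      · exact Or.inr (Or.inr (Or.inr (Or.inl h)))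
    by_cases h2 : ∀ T ∈ image p, ht T = 0
    · have htr : ∀ a : Fin m → M2, (FreeAlgebra.lift ℝ a p).trace = 0 := by
        intro a
        have := h2 _ ⟨a, rfl⟩
        simp only [ht] at this
        linarith
      rcases trichotomy p hp htr with h | h | h
      · exact Or.inl h
      · exact Or.inr (Or.inr (Or.inr (Or.inr (Or.inl h))))
      · exact Or.inr (Or.inr (Or.inr (Or.inr (Or.inr (Or.inl h)))))
    push Not at h1 h2
    exact Or.inr (Or.inr (Or.inr (Or.inr (Or.inr (Or.inr (hNec m p hp h2 h1))))))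
  · rintro (rfl | rfl | rfl | rfl | rfl | rfl | h)
    · refine ⟨2, 0, ?_, real_zero⟩
      refine ⟨fun _ => 1, 1, one_ne_zero, fun l hl => ?_⟩
      exfalso
      apply hl
      simp [coeff]
    · exact ⟨2, _, semi_sq, image_sq⟩
    · exact ⟨2, _, semi_four, image_four⟩
    · exact ⟨2, _, semi_neg_four, image_neg_four⟩
    · exact ⟨2, comm2, homo_semi comm2_homo two_ne_zero, real_sl⟩
    · exact ⟨2, comm2 ^ 3, homo_semi (comm2_homo.pow 3) (by norm_num), real_third⟩
    · exact hSuf S h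

end Pool.Agent.K7.H97.MI
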